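import Pool.Agent.D0H54.GB.Orb

/-!
# The character sums over the monic polynomials

For MP_a90b0f_nt (helper54), piece B.  Lean: helper45.
-/

set_option autoImplicit false
set_option linter.unusedSectionVars false

open Finset Polynomial Matrix

namespace Pool.Agent.D0H54.GB

section mon

variable {k : Type*} [Field k]

/-- the monic polynomial of degree `j` with the lower coefficients `a` -/
noncomputable def mon (j : ℕ) (a : Fin j → k) : k[X] := X ^ j + ∑ i, C (a i) * X ^ (i : ℕ)

theorem low_degree {j : ℕ} (a : Fin j → k) :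
    (∑ i, C (a i) * X ^ (i : ℕ) : k[X]).degree < j := by
  rw [degree_lt_iff_coeff_zero]
  intro m hm
  rw [finsetSum_coeff]
  refine sum_eq_zero fun i _ => ?_
  rw [coeff_C_mul_X_pow, if_neg]
  have := i.2
  omega

theorem mon_monic {j : ℕ} (a : Fin j → k) : (mon j a).Monic :=
  monic_X_pow_add (low_degree a)

theorem mon_natDegree {j : ℕ} (a : Fin j → k) : (mon j a).natDegree = j := by
  rw [mon, natDegree_add_eq_left_of_degree_lt, natDegree_X_pow]
  rw [degree_X_pow]
  exact low_degree a

theorem mon_coeff {j : ℕ} (a : Fin j → k) (i : Fin j) : (mon j a).coeff i = a i := by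
  rw [mon, coeff_add, coeff_X_pow, if_neg (by have := i.2; omega), zero_add, finsetSum_coeff,
    sum_eq_single i]
  · simp
  · intro b _ hb
    rw [coeff_C_mul_X_pow, if_neg]
    exact fun h => hb (Fin.ext h.symm)
  · intro h
    exact absurd (mem_univ _) h

theorem mon_injective (j : ℕ) : Function.Injective (mon (k := k) j) := by
  intro a b h
  funext i
  rw [← mon_coeff a i, h, mon_coeff]

theorem exists_mon {c : k[X]} (hc : c.Monic) : mon c.natDegree (fun i => c.coeff i) = c := by
  rw [mon]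
  conv_rhs => rw [hc.as_sum]
  congr 1
  exact Fin.sum_univ_eq_sum_range (fun i => C (c.coeff i) * X ^ i) c.natDegree

variable [Fintype k]

/-- the monic polynomials of degree `j` -/
noncomputable def Mo (k : Type*) [Field k] [Fintype k] (j : ℕ) : Finset k[X] :=
  univ.map ⟨mon j, mon_injective j⟩

theorem mem_Mo {j : ℕ} {c : k[X]} : c ∈ Mo k j ↔ c.Monic ∧ c.natDegree = j := by
  rw [Mo, mem_map]
  constructor
  · rintro ⟨a, -, rfl⟩
    exact ⟨mon_monic a, mon_natDegree a⟩
  · rintro ⟨h1, rfl⟩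
    exact ⟨_, mem_univ _, exists_mon h1⟩

theorem sum_Mo {M : Type*} [AddCommMonoid M] (j : ℕ) (f : k[X] → M) :
    ∑ c ∈ Mo k j, f c = ∑ a : Fin j → k, f (mon j a) := by
  rw [Mo, sum_map]
  rfl

end mon

section L

variable {k Om R : Type*} [Field k] [Fintype k] [Field Om] [IsAlgClosed Om] [Algebra k Om]
  [CommRing R] [Algebra Om R]

variable (Om) in
/-- the product of the values of `Q` at the roots of `c` -/
noncomputable def chiR (Q : R[X]) (c : k[X]) : R :=
  ((c.map (algebraMap k Om)).roots.map (fun z => Q.eval (algebraMap Om R z))).prod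

variable (k Om) in
/-- the sum over the monic polynomials of degree `j` -/
noncomputable def SS (Q : R[X]) (j : ℕ) : R := ∑ c ∈ Mo k j, chiR Om Q c

theorem chiR_one (Q : R[X]) : chiR Om Q (1 : k[X]) = 1 := by
  simp [chiR]

theorem chiR_mul (Q : R[X]) {c d : k[X]} (hc : c.Monic) (hd : d.Monic) :
    chiR Om Q (c * d) = chiR Om Q c * chiR Om Q d := by
  rw [chiR, Polynomial.map_mul, roots_mul, Multiset.map_add, Multiset.prod_add]
  · rfl
  · exact ((hc.map _).mul (hd.map _)).ne_zero

theorem chiR_mul_left (Q W : R[X]) (c : k[X]) :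
    chiR Om (Q * W) c = chiR Om Q c * chiR Om W c := by
  simp only [chiR, eval_mul, Multiset.prod_map_mul]

theorem SS_zero (Q : R[X]) : SS k Om Q 0 = 1 := by
  rw [SS, sum_Mo]
  simp [mon, chiR_one]

open scoped Classical in
/-- `∏ v(z) ^ (q - 1)` over the roots of `c` -/
theorem chiR_V {v c : k[X]} (hv : Irreducible v) (hc : c.Monic) :
    chiR Om (((v.map (algebraMap k Om)).map (algebraMap Om R)) ^ (Fintype.card k - 1)) c =
      if v ∣ c then 0 else 1 := by
  set q := Fintype.card k with hq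
  have hq2 : 2 ≤ q := two_le_card
  set r : Om := ((c.map (algebraMap k Om)).roots.map (fun z => aeval z v)).prod with hr
  have h1 : chiR Om (((v.map (algebraMap k Om)).map (algebraMap Om R)) ^ (q - 1)) c =
      (algebraMap Om R r) ^ (q - 1) := by
    rw [chiR, hr, map_multiset_prod, Multiset.map_map, ← Multiset.prod_map_pow]
    congr 1
    refine Multiset.map_congr rfl fun z _ => ?_
    rw [eval_pow, eval_map_algebraMap, Function.comp_apply, aeval_algebraMap_apply,
      coe_aeval_eq_eval, eval_map_algebraMap]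
  have h2 : r ^ q = r := by
    rw [hr, ← Multiset.prod_map_pow]
    conv_rhs => rw [← roots_frob c, Multiset.map_map]
    congr 1
    refine Multiset.map_congr rfl fun z _ => ?_
    rw [frob_eval_map]
    rfl
  have h3 : r = 0 ↔ v ∣ c := by
    rw [hr, Multiset.prod_eq_zero_iff, Multiset.mem_map]
    constructor
    · rintro ⟨z, hz, hz0⟩
      rw [mem_roots (hc.map _).ne_zero, IsRoot.def, eval_map_algebraMap] at hz
      exact (hv.dvd_iff_aeval_eq_zero hz0).1 hz
    · intro h
      obtain ⟨z, hz⟩ := IsAlgClosed.exists_aeval_eq_zero Om v hv.degree_pos.ne'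
      refine ⟨z, ?_, hz⟩
      rw [mem_roots (hc.map _).ne_zero, IsRoot.def, eval_map_algebraMap]
      exact (hv.dvd_iff_aeval_eq_zero hz).2 h
  rw [h1]
  split_ifs with h
  · rw [h3.2 h, map_zero, zero_pow (by omega)]
  · have h4 : r ≠ 0 := fun h0 => h (h3.1 h0)
    have h5 : r ^ (q - 1) = 1 := by
      apply mul_right_cancel₀ h4
      rw [← pow_succ, Nat.sub_add_cancel (by omega), one_mul, h2]
    rw [← map_pow, h5, map_one]

theorem T1 {v : k[X]} (hv : Irreducible v) (hm : v.Monic) (Q : R[X]) (j : ℕ) :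
    SS k Om (Q * ((v.map (algebraMap k Om)).map (algebraMap Om R)) ^ (Fintype.card k - 1)) j =
      SS k Om Q j - chiR Om Q v * (if v.natDegree ≤ j then SS k Om Q (j - v.natDegree) else 0) := by
  classical
  have h1 : ∀ c ∈ Mo k j,
      chiR Om (Q * ((v.map (algebraMap k Om)).map (algebraMap Om R)) ^ (Fintype.card k - 1)) c =
        chiR Om Q c - (if v ∣ c then chiR Om Q c else 0) := by
    intro c hc
    rw [mem_Mo] at hc
    rw [chiR_mul_left, chiR_V hv hc.1]
    split_ifs with h
    · simp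
    · simp
  rw [SS, sum_congr rfl h1, sum_sub_distrib]
  congr 1
  rw [← sum_filter]
  split_ifs with hj
  · rw [SS, mul_sum]
    symm
    refine sum_bij (fun c _ => v * c) ?_ ?_ ?_ ?_
    · intro c hc
      rw [mem_Mo] at hc
      rw [mem_filter, mem_Mo]
      refine ⟨⟨hm.mul hc.1, ?_⟩, dvd_mul_right _ _⟩
      rw [hm.natDegree_mul hc.1, hc.2]
      omega
    · intro a _ b _ hab
      exact mul_left_cancel₀ hm.ne_zero hab
    · intro c hc
      rw [mem_filter, mem_Mo] at hc
      obtain ⟨⟨hc1, hc2⟩, d, hd⟩ := hc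
      have hd1 : d.Monic := Monic.of_mul_monic_left hm (hd ▸ hc1)
      refine ⟨d, ?_, hd.symm⟩
      rw [mem_Mo]
      refine ⟨hd1, ?_⟩
      have := hm.natDegree_mul hd1
      rw [← hd] at this
      omega
    · intro c hc
      rw [mem_Mo] at hc
      exact (chiR_mul Q hm hc.1).symm
  · rw [mul_zero]
    apply sum_eq_zero
    intro c hc
    rw [mem_filter, mem_Mo] at hc
    exfalso
    apply hj
    rw [← hc.1.2]
    exact natDegree_le_of_dvd hc.2 hc.1.1.ne_zero

theorem T3L {m : ℕ} (Q : R[X])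
    (hQ : ∀ i, 1 ≤ i → i ≤ m → (X ^ Fintype.card k ^ i - X : R[X]) ∣ Q) {j : ℕ} (hj1 : 1 ≤ j)
    (hj : j ≤ m) : SS k Om Q j = 0 := by
  rw [SS]
  refine sum_eq_zero fun c hc => ?_
  rw [mem_Mo] at hc
  have hu : ¬ IsUnit c := by
    intro h
    have := natDegree_eq_zero_of_isUnit h
    omega
  obtain ⟨v, hv, hvc⟩ := WfDvdMonoid.exists_irreducible_factor hu hc.1.ne_zero
  obtain ⟨z, hz⟩ := IsAlgClosed.exists_aeval_eq_zero Om v hv.degree_pos.ne'
  have hvd : v.natDegree ≤ j := by
    rw [← hc.2]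
    exact natDegree_le_of_dvd hvc hc.1.ne_zero
  have hz2 : z ^ Fintype.card k ^ v.natDegree = z := by
    obtain ⟨w, hw⟩ := dvd_X_pow hv
    have h1 := congrArg (aeval z) hw
    rw [map_mul, hz, zero_mul, map_sub, map_pow, aeval_X, sub_eq_zero] at h1
    exact h1
  obtain ⟨w, hw⟩ := hQ v.natDegree hv.natDegree_pos (hvd.trans hj)
  apply Multiset.prod_eq_zero
  rw [Multiset.mem_map]
  refine ⟨z, ?_, ?_⟩
  · rw [mem_roots (hc.1.map _).ne_zero, IsRoot.def, eval_map_algebraMap]
    exact (hv.dvd_iff_aeval_eq_zero hz).2 hvc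
  · rw [hw, eval_mul, eval_sub, eval_pow, eval_X, ← map_pow, hz2, sub_self, zero_mul]

end L

end Pool.Agent.D0H54.GB
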