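import Pool.Agent.D0H54.GB.Trace

/-!
# Two independent solutions of `cq (P f) = f`

For MP_a90b0f_nt (helper54), piece B.  Lean: helper45.
-/

set_option autoImplicit false
set_option linter.unusedSectionVars false

open Finset Polynomial Matrix

namespace Pool.Agent.D0H54.GB

section linalg

variable {K : Type*} [Field K] {N : ℕ}

theorem key_lemma {A B : Matrix (Fin N) (Fin N) K}
    (h0 : (det (A.map C + (X : K[X]) • B.map C)).coeff 0 = 0)
    (h1 : (det (A.map C + (X : K[X]) • B.map C)).coeff 1 = 0) (hadj : A.adjugate ≠ 0) :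
    ∃ x, x ≠ 0 ∧ A *ᵥ x = 0 ∧ ∃ y, A *ᵥ y = B *ᵥ x := by
  set M : Matrix (Fin N) (Fin N) K[X] := A.map C + (X : K[X]) • B.map C with hM
  have hME := mul_adjugate M
  set E := M.adjugate with hE
  have hE0 : ∀ i j, (E i j).coeff 0 = A.adjugate i j := by
    have e1 : (constantCoeff (R := K)).mapMatrix M = A := by
      ext i j
      rw [RingHom.mapMatrix_apply, Matrix.map_apply, hM]
      simp
    have e2 := (constantCoeff (R := K)).map_adjugate M
    rw [e1] at e2
    intro i j
    rw [← e2]
    rfl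
  have hentry : ∀ i j, (M i j) = C (A i j) + X * C (B i j) := fun i j => rfl
  have hcol : ∃ i j, A.adjugate i j ≠ 0 := by
    by_contra hcon
    push Not at hcon
    exact hadj (by ext i j; exact hcon i j)
  obtain ⟨i0, j0, hij⟩ := hcol
  refine ⟨fun l => (E l j0).coeff 0, ?_, ?_, fun l => -(E l j0).coeff 1, ?_⟩
  · intro h
    have := congrFun h i0
    rw [hE0] at this
    exact hij this
  · funext i
    have h2 : ((M * E) i j0).coeff 0 = ((M.det • (1 : Matrix (Fin N) (Fin N) K[X])) i j0).coeff 0 := by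
      rw [hME]
    rw [Matrix.mul_apply, finsetSum_coeff, Matrix.smul_apply, smul_eq_mul, mul_coeff_zero, h0,
      zero_mul] at h2
    rw [Pi.zero_apply, ← h2, Matrix.mulVec, dotProduct]
    refine sum_congr rfl fun l _ => ?_
    rw [mul_coeff_zero, hentry]
    simp
  · funext i
    have h2 : ((M * E) i j0).coeff 1 = ((M.det • (1 : Matrix (Fin N) (Fin N) K[X])) i j0).coeff 1 := by
      rw [hME]
    rw [Matrix.mul_apply, finsetSum_coeff, Matrix.smul_apply, smul_eq_mul, mul_coeff_one, h0,
      h1, zero_mul, zero_mul, add_zero] at h2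
    have h3 : ∀ l, (M i l * E l j0).coeff 1 = A i l * (E l j0).coeff 1 + B i l * (E l j0).coeff 0 := by
      intro l
      rw [mul_coeff_one, hentry]
      simp
    rw [sum_congr rfl fun l _ => h3 l, sum_add_distrib] at h2
    rw [Matrix.mulVec, dotProduct, Matrix.mulVec, dotProduct]
    simp only [mul_neg, sum_neg_distrib]
    exact neg_eq_of_add_eq_zero_right h2

theorem adj_ne_zero {A : Matrix (Fin N) (Fin N) K} {v : Fin N → K} (hv : v ≠ 0)
    (hAv : A *ᵥ v = 0) (h1d : ∀ x, A *ᵥ x = 0 → ∃ c : K, x = c • v) : A.adjugate ≠ 0 := by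
  have hdet : A.det = 0 := Matrix.exists_mulVec_eq_zero_iff.1 ⟨v, hv, hAv⟩
  obtain ⟨w, hw, hwA⟩ := Matrix.exists_vecMul_eq_zero_iff.2 hdet
  obtain ⟨i, hi⟩ := Function.ne_iff.1 hv
  obtain ⟨j, hj⟩ := Function.ne_iff.1 hw
  rw [Pi.zero_apply] at hi hj
  intro hadj
  set A' := A.updateRow j (A j + Pi.single i 1) with hA'
  have hdet' : A'.det = 0 := by
    rw [hA', det_updateRow_add, updateRow_eq_self, hdet, zero_add, ← adjugate_apply, hadj]
    rfl
  obtain ⟨x, hx, hA'x⟩ := Matrix.exists_mulVec_eq_zero_iff.2 hdet'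
  have hrow : ∀ r, r ≠ j → (A *ᵥ x) r = 0 := by
    intro r hr
    have := congrFun hA'x r
    rw [Matrix.mulVec, dotProduct, hA', updateRow_ne hr] at this
    exact this
  have hrowj : (A *ᵥ x) j + x i = 0 := by
    have := congrFun hA'x j
    rw [Matrix.mulVec, hA', updateRow_self, add_dotProduct, single_one_dotProduct] at this
    exact this
  have h1 : w ⬝ᵥ (A *ᵥ x) = 0 := by
    rw [dotProduct_mulVec, hwA, zero_dotProduct]
  have h2 : w ⬝ᵥ (A *ᵥ x) = w j * (A *ᵥ x) j := by
    rw [dotProduct, sum_eq_single j]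
    · intro r _ hr
      rw [hrow r hr, mul_zero]
    · intro h
      exact absurd (mem_univ _) h
  have h3 : (A *ᵥ x) j = 0 := (mul_eq_zero.1 (h2.symm.trans h1)).resolve_left hj
  have h4 : x i = 0 := by rw [h3, zero_add] at hrowj; exact hrowj
  have h5 : A *ᵥ x = 0 := by
    funext r
    by_cases hr : r = j
    · rw [hr]; exact h3
    · exact hrow r hr
  obtain ⟨c, rfl⟩ := h1d x h5
  rw [Pi.smul_apply, smul_eq_mul] at h4
  have h6 : c = 0 := (mul_eq_zero.1 h4).resolve_right hi
  exact hx (by rw [h6, zero_smul])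

end linalg

section ker

variable {K : Type*} [Field K]

/-- the polynomial with the given coefficients -/
noncomputable def pol {N : ℕ} (x : Fin N → K) : K[X] := ∑ i, C (x i) * X ^ (i : ℕ)

theorem pol_degree {N : ℕ} (x : Fin N → K) : (pol x).degree < N := low_degree x

theorem cv_pol {N : ℕ} (x : Fin N → K) : cv N (pol x) = x := by
  funext i
  rw [cv, pol, finsetSum_coeff, sum_eq_single i]
  · simp
  · intro b _ hb
    rw [coeff_C_mul_X_pow, if_neg]
    exact fun h => hb (Fin.ext h.symm)
  · intro h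
    exact absurd (mem_univ _) h

theorem cv_inj {N : ℕ} {f g : K[X]} (hf : f.degree < N) (hg : g.degree < N)
    (h : cv N f = cv N g) : f = g := by
  ext i
  by_cases hi : i < N
  · exact congrFun h ⟨i, hi⟩
  · rw [coeff_eq_zero_of_degree_lt (lt_of_lt_of_le hf (by exact_mod_cast not_lt.1 hi)),
      coeff_eq_zero_of_degree_lt (lt_of_lt_of_le hg (by exact_mod_cast not_lt.1 hi))]

variable {q n : ℕ} (hq : 2 ≤ q) {P : K[X]} (hdeg : P.natDegree = n * (q - 1))
include hq hdeg

theorem coeff_high {h : K[X]} {d : ℕ} (hh : h.natDegree ≤ d) (hd : n ≤ d) :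
    (cq q (P * h)).coeff d = 0 := by
  rw [coeff_cq (by omega)]
  apply coeff_eq_zero_of_natDegree_lt
  refine lt_of_le_of_lt natDegree_mul_le ?_
  rw [hdeg]
  obtain ⟨r, rfl⟩ : ∃ r, q = r + 2 := ⟨q - 2, by omega⟩
  have e1 : (r + 2) * (d + 1) = d * (r + 1) + (r + 2) + d := by ring
  have e2 : n * (r + 1) ≤ d * (r + 1) := Nat.mul_le_mul_right _ hd
  have e3 : r + 2 - 1 = r + 1 := by omega
  rw [e3, e1]
  omega

theorem deg_lt_of_fix {h : K[X]} (hfix : cq q (P * h) = h) (h0 : 1 ≤ n) : h.degree < n := by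
  by_contra hcon
  rw [not_lt] at hcon
  have hn : n ≤ h.natDegree := le_natDegree_of_coe_le_degree hcon
  have h1 := coeff_high hq hdeg (le_refl h.natDegree) hn
  rw [hfix] at h1
  have h2 : h = 0 := by
    rwa [coeff_natDegree, leadingCoeff_eq_zero] at h1
  rw [h2, natDegree_zero] at hn
  omega

theorem coeff_top {h : K[X]} (hP : P.Monic) (hn : 1 ≤ n) (hh : h.natDegree ≤ n - 1) :
    (cq q (P * h)).coeff (n - 1) = h.coeff (n - 1) := by
  rw [coeff_cq (by omega), Nat.sub_add_cancel hn]
  have e : q * n - 1 = n * (q - 1) + (n - 1) := by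
    obtain ⟨r, rfl⟩ : ∃ r, q = r + 1 := ⟨q - 1, by omega⟩
    rw [Nat.add_sub_cancel]
    have : (r + 1) * n = n * r + n := by ring
    omega
  rw [e, coeff_mul_add_eq_of_natDegree_le hdeg.le hh]
  have : P.coeff (n * (q - 1)) = 1 := by
    rw [← hdeg]; exact hP.coeff_natDegree
  rw [this, one_mul]

theorem cq_deg {N : ℕ} (hN : 0 < N) (hnN : n ≤ N) {h : K[X]} (hh : h.degree < N) :
    (cq q (P * h)).degree < N := by
  refine cq_degree_lt (by omega) ?_ hN
  refine natDegree_mul_le.trans ?_
  rw [hdeg]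
  have h1 : h.natDegree < N := by
    by_cases h0 : h = 0
    · rw [h0, natDegree_zero]; exact hN
    · rwa [natDegree_lt_iff_degree_lt h0]
  obtain ⟨r, rfl⟩ : ∃ r, q = r + 1 := ⟨q - 1, by omega⟩
  have e1 : N * (r + 1) = N * r + N := by ring
  have e2 : n * r ≤ N * r := Nat.mul_le_mul_right _ hnN
  rw [Nat.add_sub_cancel]
  omega

theorem A_mulVec {N : ℕ} {h : K[X]} (hh : h.degree < N) :
    (1 - MQ q N P) *ᵥ (cv N h) = cv N (h - cq q (P * h)) := by
  rw [Matrix.sub_mulVec, Matrix.one_mulVec, MQ_mulVec' (by omega) P hh]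
  funext i
  simp [cv]

theorem exists_fix (hP : P.Monic) (hn : 1 ≤ n) :
    ∃ f : K[X], f ≠ 0 ∧ f.degree < n ∧ cq q (P * f) = f := by
  have hrow : ∀ j, (1 - MQ q n P) ⟨n - 1, by omega⟩ j = 0 := by
    intro j
    have h1 : (X ^ (j : ℕ) : K[X]).degree < n := by
      rw [degree_X_pow]; exact_mod_cast j.2
    have h2 := congrFun (A_mulVec hq hdeg (N := n) h1) ⟨n - 1, by omega⟩
    have h3 : cv n (X ^ (j : ℕ) : K[X]) = Pi.single j 1 := by
      funext i
      rw [cv, coeff_X_pow, Pi.single_apply]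
      simp only [Fin.ext_iff]
    rw [h3, Matrix.mulVec_single_one] at h2
    rw [Matrix.col_apply] at h2
    rw [h2, cv, coeff_sub, sub_eq_zero]
    refine (coeff_top hq hdeg hP hn ?_).symm
    rw [natDegree_X_pow]
    have := j.2
    omega
  have hdet : (1 - MQ q n P).det = 0 := det_eq_zero_of_row_eq_zero _ hrow
  obtain ⟨v, hv, hAv⟩ := Matrix.exists_mulVec_eq_zero_iff.2 hdet
  have h1 : cv n (pol v) = v := cv_pol v
  refine ⟨pol v, ?_, pol_degree v, ?_⟩
  · intro h
    rw [h] at h1
    apply hv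
    rw [← h1]
    rfl
  · rw [← h1, A_mulVec hq hdeg (pol_degree v)] at hAv
    have h2 : cv n (cq q (P * pol v)) = cv n (pol v) := by
      funext i
      have := congrFun hAv i
      rw [cv, coeff_sub, Pi.zero_apply, sub_eq_zero] at this
      exact this.symm
    exact cv_inj (cq_deg hq hdeg (by omega) le_rfl (pol_degree v)) (pol_degree v) h2

end ker

section main

variable {k Om : Type*} [Field k] [Fintype k] [Field Om] [IsAlgClosed Om] [Algebra k Om]

/-- the character -/
noncomputable def chi (P : Om[X]) (c : k[X]) : Om :=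
  ((c.map (algebraMap k Om)).roots.map (fun z => P.eval z)).prod

variable (Om) in
/-- the power sum of the roots -/
noncomputable def psum (l : ℕ) (c : k[X]) : Om :=
  ((c.map (algebraMap k Om)).roots.map (fun z => z ^ l)).sum

theorem prod_coeff {α : Type*} (s : Multiset α) (a b : α → Om) :
    ((s.map (fun z => C (a z) * (1 - C (b z) * X))).prod).coeff 0 = (s.map a).prod ∧
    ((s.map (fun z => C (a z) * (1 - C (b z) * X))).prod).coeff 1 =
      -((s.map a).prod * (s.map b).sum) := by
  induction s using Multiset.induction_on with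
  | empty => simp [coeff_one]
  | cons z s ih =>
    rw [Multiset.map_cons, Multiset.prod_cons, Multiset.map_cons, Multiset.prod_cons,
      Multiset.map_cons, Multiset.sum_cons, mul_coeff_zero, mul_coeff_one, ih.1, ih.2]
    have h0 : (C (a z) * (1 - C (b z) * X)).coeff 0 = a z := by simp
    have h1 : (C (a z) * (1 - C (b z) * X)).coeff 1 = -(a z * b z) := by
      simp [coeff_one]
    rw [h0, h1]
    refine ⟨rfl, by ring⟩

/-- the perturbation of `P` -/
noncomputable def Ql (P : Om[X]) (l : ℕ) : Om[X][X] := P.map C * (1 - C X * X ^ l)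

theorem chiR_Ql (P : Om[X]) (l : ℕ) (c : k[X]) :
    (chiR Om (Ql P l) c).coeff 1 = -(chi P c * psum Om l c) := by
  have h1 : chiR Om (Ql P l) c = ((c.map (algebraMap k Om)).roots.map
      (fun z => C (P.eval z) * (1 - C (z ^ l) * X))).prod := by
    rw [chiR]
    congr 1
    refine Multiset.map_congr rfl fun z _ => ?_
    rw [Ql, eval_mul, eval_sub, eval_one, eval_mul, eval_C, eval_pow, eval_X, algebraMap_eq,
      eval_map, eval₂_at_apply, C_pow, mul_comm X]
  rw [h1, (prod_coeff _ _ _).2]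
  rfl

theorem MQ_Ql (q N : ℕ) (P : Om[X]) (l : ℕ) :
    1 - MQ q N (Ql P l) =
      (1 - MQ q N P).map C + (X : Om[X]) • (MQ q N (P * X ^ l)).map C := by
  ext1 i j
  have h1 : MQ q N (Ql P l) i j = C (MQ q N P i j) - X * C (MQ q N (P * X ^ l) i j) := by
    simp only [MQ, Ql]
    have e : P.map C * (1 - C X * X ^ l) * X ^ (j : ℕ) =
        (P * X ^ (j : ℕ)).map (C : Om →+* Om[X]) -
          C X * (P * X ^ l * X ^ (j : ℕ)).map (C : Om →+* Om[X]) := by
      simp only [Polynomial.map_mul, Polynomial.map_pow, map_X]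
      ring
    rw [e, coeff_sub, coeff_C_mul, coeff_map, coeff_map]
  rw [Matrix.sub_apply, Matrix.add_apply, Matrix.smul_apply, Matrix.map_apply, Matrix.map_apply,
    Matrix.sub_apply, h1, smul_eq_mul, C_sub, Matrix.one_apply, Matrix.one_apply]
  have : (C (if i = j then (1 : Om) else 0) : Om[X]) = if i = j then 1 else 0 := by
    split_ifs <;> simp
  rw [this]
  ring

theorem pieceB {P : Om[X]} {n : ℕ} (hn : 1 ≤ n) (hP : P.Monic)
    (hdeg : P.natDegree = n * (Fintype.card k - 1))
    (h : ∀ l < n, ∃ J0, ∀ J ≥ J0, ∑ j ∈ range J, ∑ a : Fin j → k,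
      chi P (mon j a) * psum Om l (mon j a) = 0) :
    ∃ f g : Om[X], f.degree < n ∧ g.degree < n ∧ cq (Fintype.card k) (P * f) = f ∧
      cq (Fintype.card k) (P * g) = g ∧ LinearIndependent Om ![f, g] := by
  set q := Fintype.card k with hqdef
  have hq2 : 2 ≤ q := two_le_card
  set N := 2 * n with hN
  obtain ⟨f, hf0, hfd, hf⟩ := exists_fix hq2 hdeg hP hn
  have hfN : f.degree < N := lt_of_lt_of_le hfd (by exact_mod_cast (by omega : n ≤ N))
  by_cases hg : ∃ g : Om[X], cq q (P * g) = g ∧ ∀ c : Om, c • f ≠ g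
  · obtain ⟨g, hg1, hg2⟩ := hg
    refine ⟨f, g, hfd, deg_lt_of_fix hq2 hdeg hg1 hn, hf, hg1, ?_⟩
    rw [LinearIndependent.pair_iff' hf0]
    exact hg2
  · exfalso
    push Not at hg
    set A := 1 - MQ q N P with hA
    have hAv : A *ᵥ cv N f = 0 := by
      rw [hA, A_mulVec hq2 hdeg hfN, hf, sub_self]
      funext i
      simp [cv]
    have hv0 : cv N f ≠ 0 := by
      intro h0
      apply hf0
      refine cv_inj hfN (by rw [degree_zero]; exact WithBot.bot_lt_coe _) ?_
      rw [h0]
      funext i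
      simp [cv]
    have h1d : ∀ x, A *ᵥ x = 0 → ∃ c : Om, x = c • cv N f := by
      intro x hx
      have h1 : cv N (pol x) = x := cv_pol x
      rw [← h1, hA, A_mulVec hq2 hdeg (pol_degree x)] at hx
      have h2 : cv N (cq q (P * pol x)) = cv N (pol x) := by
        funext i
        have := congrFun hx i
        rw [cv, coeff_sub, Pi.zero_apply, sub_eq_zero] at this
        exact this.symm
      have h3 := cv_inj (cq_deg hq2 hdeg (by omega) (by omega) (pol_degree x)) (pol_degree x) h2
      obtain ⟨c, hc⟩ := hg _ h3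
      refine ⟨c, ?_⟩
      rw [← h1, ← hc]
      funext i
      simp [cv]
    have hadj := adj_ne_zero hv0 hAv h1d
    -- the degree of `f`
    have hfn : f.natDegree < n := by rwa [natDegree_lt_iff_degree_lt hf0]
    set l := n - 1 - f.natDegree with hl
    set B := MQ q N (P * X ^ l) with hB
    obtain ⟨J0, hJ0⟩ := h l (by omega)
    have hdegQ : (Ql P l).natDegree ≤ N * (q - 1) := by
      rw [Ql]
      refine natDegree_mul_le.trans ?_
      rw [natDegree_map_eq_of_injective C_injective, hdeg]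
      have h1 : (1 - C X * X ^ l : Om[X][X]).natDegree ≤ l := by
        refine (natDegree_sub_le _ _).trans ?_
        rw [natDegree_one]
        exact max_le (Nat.zero_le _) (natDegree_C_mul_X_pow_le _ _)
      have h2 : n ≤ n * (q - 1) := Nat.le_mul_of_pos_right _ (by omega)
      have h3 : N * (q - 1) = n * (q - 1) + n * (q - 1) := by rw [hN]; ring
      omega
    have htr := trace_formula_one (k := k) (Om := Om) N (Ql P l) hdegQ (max J0 (N + 1))
      (by omega)
    have hcoef : ((1 - MQ q N (Ql P l)).det).coeff 1 = 0 := by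
      rw [← htr, finsetSum_coeff]
      have h1 : ∀ j ∈ range (max J0 (N + 1)), (SS k Om (Ql P l) j).coeff 1 =
          -∑ a : Fin j → k, chi P (mon j a) * psum Om l (mon j a) := by
        intro j _
        rw [SS, sum_Mo, finsetSum_coeff, ← sum_neg_distrib]
        exact sum_congr rfl fun a _ => chiR_Ql P l _
      rw [sum_congr rfl h1, sum_neg_distrib, hJ0 _ (le_max_left _ _), neg_zero]
    rw [MQ_Ql, ← hA, ← hB] at hcoef
    have hdetA : A.det = 0 := Matrix.exists_mulVec_eq_zero_iff.1 ⟨_, hv0, hAv⟩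
    have hcoef0 : (det (A.map C + (X : Om[X]) • B.map C)).coeff 0 = 0 := by
      rw [coeff_zero_eq_eval_zero, ← coe_evalRingHom, RingHom.map_det]
      have e1 : (evalRingHom (0 : Om)).mapMatrix (A.map C + (X : Om[X]) • B.map C) = A := by
        ext i j
        rw [RingHom.mapMatrix_apply, Matrix.map_apply, Matrix.add_apply, Matrix.smul_apply,
          Matrix.map_apply, Matrix.map_apply]
        simp
      rw [e1, hdetA]
    obtain ⟨x, hx0, hAx, y, hy⟩ := key_lemma hcoef0 hcoef hadj
    obtain ⟨c, rfl⟩ := h1d x hAx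
    have hc : c ≠ 0 := fun h0 => hx0 (by rw [h0, zero_smul])
    set h' := pol (c⁻¹ • y) with hh'
    have hh'd : h'.degree < N := pol_degree _
    have h1 : A *ᵥ (c⁻¹ • y) = B *ᵥ cv N f := by
      rw [Matrix.mulVec_smul, hy, Matrix.mulVec_smul, smul_smul, inv_mul_cancel₀ hc, one_smul]
    have h2 : cv N h' = c⁻¹ • y := cv_pol _
    rw [← h2, hA, A_mulVec hq2 hdeg hh'd, hB, MQ_mulVec' (by omega) _ hfN] at h1
    have hXf : (X ^ l * f).natDegree = n - 1 := by
      rw [natDegree_X_pow_mul l hf0]; omega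
    have hXfd : (X ^ l * f : Om[X]).degree < (N : WithBot ℕ) := by
      refine lt_of_le_of_lt degree_le_natDegree ?_
      rw [hXf]
      exact_mod_cast (by omega : n - 1 < N)
    rw [mul_assoc] at h1
    have h3 := cv_inj (lt_of_le_of_lt (degree_sub_le _ _)
      (max_lt hh'd (cq_deg hq2 hdeg (by omega) (by omega) hh'd)))
      (cq_deg hq2 hdeg (by omega) (by omega) hXfd) h1
    have htop : (cq q (P * (X ^ l * f))).coeff (n - 1) ≠ 0 := by
      rw [coeff_top hq2 hdeg hP hn hXf.le]
      have : (X ^ l * f).coeff (n - 1) = (X ^ l * f).leadingCoeff := by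
        rw [← coeff_natDegree, hXf]
      rw [this]
      have hne : X ^ l * f ≠ 0 := mul_ne_zero (pow_ne_zero _ X_ne_zero) hf0
      exact leadingCoeff_ne_zero.2 hne
    have hhn : h'.natDegree ≤ n - 1 := by
      by_contra hcon
      have hcon' : n ≤ h'.natDegree := by omega
      have e1 := coeff_high hq2 hdeg (le_refl h'.natDegree) hcon'
      have e2 := coeff_high hq2 hdeg (h := X ^ l * f) (d := h'.natDegree) (by omega) hcon'
      have e3 : (h' - cq q (P * h')).coeff h'.natDegree =
          (cq q (P * (X ^ l * f))).coeff h'.natDegree := by rw [h3]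
      rw [coeff_sub, e1, e2, sub_zero, coeff_natDegree, leadingCoeff_eq_zero] at e3
      rw [e3, natDegree_zero] at hcon'
      omega
    have e3 : (h' - cq q (P * h')).coeff (n - 1) =
        (cq q (P * (X ^ l * f))).coeff (n - 1) := by rw [h3]
    rw [coeff_sub, coeff_top hq2 hdeg hP hn hhn, sub_self] at e3
    exact htop e3.symm

end main

end Pool.Agent.D0H54.GB
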