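import Pool.Agent.D0H54.GB.Mat

/-!
# The weighted cyclic matrix, and multiplication of `Q` by `v ^ (q - 1)`

For MP_a90b0f_nt (helper54), piece B.  Lean: helper45.
-/

set_option autoImplicit false

open Finset Polynomial Matrix

namespace Pool.Agent.D0H54.GB

section cyc

variable {R : Type*} [CommRing R]

theorem perm_cases {n : ℕ} (σ : Equiv.Perm (Fin (n + 2)))
    (h : ∀ i, σ i = i ∨ σ i = finRotate (n + 2) i) : σ = 1 ∨ σ = finRotate (n + 2) := by
  by_cases hex : ∃ i, σ i ≠ i
  · right
    obtain ⟨i0, hi0⟩ := hex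
    have hne : ∀ i : Fin (n + 2), finRotate (n + 2) i ≠ i := by
      intro i hi
      have : i ∈ (finRotate (n + 2)).support := by rw [support_finRotate]; exact mem_univ i
      exact (Equiv.Perm.mem_support.1 this) hi
    have hstep : ∀ i, σ i = finRotate (n + 2) i →
        σ (finRotate (n + 2) i) = finRotate (n + 2) (finRotate (n + 2) i) := by
      intro i hi
      rcases h (finRotate (n + 2) i) with h1 | h1
      · exact absurd (σ.injective (by rw [h1, hi])) (hne i)
      · exact h1
    have h0 : σ i0 = finRotate (n + 2) i0 := (h i0).resolve_left hi0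
    have hk : ∀ k : ℕ, σ (((finRotate (n + 2)) ^ k) i0) =
        finRotate (n + 2) (((finRotate (n + 2)) ^ k) i0) := by
      intro k
      induction k with
      | zero => simpa using h0
      | succ k ih =>
        rw [pow_succ', Equiv.Perm.mul_apply]
        exact hstep _ ih
    ext1 i
    obtain ⟨k, hk'⟩ := (isCycle_finRotate (n := n)).exists_pow_eq (hne i0) (hne i)
    rw [← hk']
    exact hk k
  · left
    ext1 i
    by_contra hcon
    exact hex ⟨i, hcon⟩

theorem charpoly_cyc (n : ℕ) (w : Fin (n + 1) → R) :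
    (Matrix.of fun j' j => if j' = finRotate (n + 1) j then w j else 0 :
      Matrix (Fin (n + 1)) (Fin (n + 1)) R).charpoly = X ^ (n + 1) - C (∏ j, w j) := by
  rcases n with _ | n
  · rw [charpoly]
    show det (charmatrix _ : Matrix (Fin 1) (Fin 1) R[X]) = _
    rw [Matrix.det_fin_one]
    simp
  · set M : Matrix (Fin (n + 2)) (Fin (n + 2)) R :=
      Matrix.of fun j' j => if j' = finRotate (n + 2) j then w j else 0 with hM
    have hne : ∀ i : Fin (n + 2), i ≠ finRotate (n + 2) i := by
      intro i hi
      have : i ∈ (finRotate (n + 2)).support := by rw [support_finRotate]; exact mem_univ i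
      exact (Equiv.Perm.mem_support.1 this) hi.symm
    rw [charpoly, det_apply]
    have hsub : ∑ σ : Equiv.Perm (Fin (n + 2)), Equiv.Perm.sign σ • ∏ i, charmatrix M (σ i) i =
        ∑ σ ∈ ({1, finRotate (n + 2)} : Finset (Equiv.Perm (Fin (n + 2)))),
          Equiv.Perm.sign σ • ∏ i, charmatrix M (σ i) i := by
      symm
      refine sum_subset (subset_univ _) fun σ _ hσ => ?_
      have h1 : ∃ i, charmatrix M (σ i) i = 0 := by
        by_contra hcon
        rw [not_exists] at hcon
        have : σ = 1 ∨ σ = finRotate (n + 2) := by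
          refine perm_cases σ fun i => ?_
          by_contra hcon2
          rw [not_or] at hcon2
          apply hcon i
          rw [charmatrix_apply_ne _ _ _ hcon2.1, hM, of_apply, if_neg hcon2.2, map_zero, neg_zero]
        simp only [mem_insert, mem_singleton] at hσ
        exact hσ this
      obtain ⟨i, hi⟩ := h1
      have h2 : ∏ i, charmatrix M (σ i) i = 0 := prod_eq_zero (mem_univ i) hi
      rw [h2, smul_zero]
    have hne1 : (1 : Equiv.Perm (Fin (n + 2))) ≠ finRotate (n + 2) := by
      intro h
      exact hne 0 (by rw [← h]; rfl)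
    rw [hsub, sum_pair hne1]
    have e1 : ∏ i, charmatrix M ((1 : Equiv.Perm (Fin (n + 2))) i) i = X ^ (n + 2) := by
      have : ∀ i, charmatrix M ((1 : Equiv.Perm (Fin (n + 2))) i) i = X := by
        intro i
        rw [Equiv.Perm.one_apply, charmatrix_apply_eq, hM, of_apply, if_neg (hne i), map_zero,
          sub_zero]
      rw [prod_congr rfl fun i _ => this i, prod_const, card_univ, Fintype.card_fin]
    have e2 : ∏ i, charmatrix M (finRotate (n + 2) i) i = (-1) ^ (n + 2) * C (∏ j, w j) := by
      have : ∀ i, charmatrix M (finRotate (n + 2) i) i = (-1) * C (w i) := by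
        intro i
        rw [charmatrix_apply_ne _ _ _ (hne i).symm, hM, of_apply, if_pos rfl]
        ring
      rw [prod_congr rfl fun i _ => this i, prod_mul_distrib, prod_const, card_univ,
        Fintype.card_fin, map_prod]
    rw [e1, e2, Equiv.Perm.sign_one, one_smul, sign_finRotate, Units.smul_def, zsmul_eq_mul]
    push_cast
    have h5 : (-1 : R[X]) ^ (2 * (n + 1) + 1) = -1 := by
      rw [pow_succ (-1 : R[X]) (2 * (n + 1)), pow_mul (-1 : R[X]) 2]; simp
    rw [← mul_assoc, ← pow_add, show n + 1 + (n + 2) = 2 * (n + 1) + 1 by ring, h5]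
    ring

end cyc

section T2

variable {Om R : Type*} [Field Om] [CommRing R] [Algebra Om R]

/-- `∏_{i ≠ j} (T - z_i)` -/
noncomputable def ll {n : ℕ} (z : Fin (n + 1) → Om) (j : Fin (n + 1)) : Om[X] :=
  ∏ i ∈ univ.erase j, (X - C (z i))

/-- `∏ (T - z_i)` -/
noncomputable def VV {n : ℕ} (z : Fin (n + 1) → Om) : Om[X] := ∏ i, (X - C (z i))

theorem ll_mul {n : ℕ} (z : Fin (n + 1) → Om) (j : Fin (n + 1)) :
    (X - C (z j)) * ll z j = VV z :=
  mul_prod_erase univ (fun i => (X - C (z i))) (mem_univ j)

theorem VV_monic {n : ℕ} (z : Fin (n + 1) → Om) : (VV z).Monic :=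
  monic_prod_of_monic _ _ fun _ _ => monic_X_sub_C _

theorem VV_natDegree {n : ℕ} (z : Fin (n + 1) → Om) : (VV z).natDegree = n + 1 := by
  rw [VV, natDegree_prod_of_monic _ _ fun i _ => monic_X_sub_C _]
  simp

theorem ll_monic {n : ℕ} (z : Fin (n + 1) → Om) (j : Fin (n + 1)) : (ll z j).Monic :=
  monic_prod_of_monic _ _ fun _ _ => monic_X_sub_C _

theorem ll_natDegree {n : ℕ} (z : Fin (n + 1) → Om) (j : Fin (n + 1)) :
    (ll z j).natDegree = n := by
  rw [ll, natDegree_prod_of_monic _ _ fun i _ => monic_X_sub_C _]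
  simp

theorem ll_eval_ne {n : ℕ} {z : Fin (n + 1) → Om} {i j : Fin (n + 1)} (h : i ≠ j) :
    (ll z j).eval (z i) = 0 := by
  rw [ll, eval_prod]
  exact prod_eq_zero (mem_erase.2 ⟨h, mem_univ i⟩) (by simp)

theorem ll_eval_self {n : ℕ} {z : Fin (n + 1) → Om} (hz : Function.Injective z)
    (j : Fin (n + 1)) : (ll z j).eval (z j) ≠ 0 := by
  rw [ll, eval_prod, prod_ne_zero_iff]
  intro i hi
  rw [mem_erase] at hi
  rw [eval_sub, eval_X, eval_C, sub_ne_zero]
  exact fun h => hi.1 (hz h.symm)

/-- the new basis -/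
noncomputable def col {n : ℕ} (z : Fin (n + 1) → Om) (m : ℕ) : Fin m ⊕ Fin (n + 1) → Om[X]
  | Sum.inl i => VV z * X ^ (i : ℕ)
  | Sum.inr j => ll z j

theorem col_degree {n : ℕ} (z : Fin (n + 1) → Om) (m : ℕ) (c : Fin m ⊕ Fin (n + 1)) :
    (col z m c).degree < ((m + (n + 1) : ℕ) : WithBot ℕ) := by
  rcases c with i | j
  · have h1 : (col z m (Sum.inl i)).natDegree = n + 1 + i := by
      rw [col, (VV_monic z).natDegree_mul (monic_X_pow _), VV_natDegree, natDegree_X_pow]
    have h2 : (col z m (Sum.inl i)) ≠ 0 := ((VV_monic z).mul (monic_X_pow _)).ne_zero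
    rw [degree_eq_natDegree h2, h1]
    have := i.2
    exact_mod_cast (by omega : n + 1 + (i : ℕ) < m + (n + 1))
  · rw [col, degree_eq_natDegree (ll_monic z j).ne_zero, ll_natDegree]
    exact_mod_cast (by omega : n < m + (n + 1))

/-- the matrix of the change of the basis -/
noncomputable def C0 {n : ℕ} (z : Fin (n + 1) → Om) (m : ℕ) :
    Matrix (Fin m ⊕ Fin (n + 1)) (Fin m ⊕ Fin (n + 1)) Om :=
  fun r c => (col z m c).coeff (finSumFinEquiv r : Fin (m + (n + 1)))

theorem C0_det {n : ℕ} {z : Fin (n + 1) → Om} (hz : Function.Injective z) (m : ℕ) :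
    (C0 z m).det ≠ 0 := by
  intro h0
  obtain ⟨x, hx0, hx⟩ := Matrix.exists_mulVec_eq_zero_iff.2 h0
  apply hx0
  -- the polynomial
  have hp : ∑ c, C (x c) * col z m c = 0 := by
    ext i
    rw [coeff_zero]
    by_cases hi : i < m + (n + 1)
    · have h1 := congrFun hx (finSumFinEquiv.symm (⟨i, hi⟩ : Fin (m + (n + 1))))
      rw [Pi.zero_apply, Matrix.mulVec, dotProduct] at h1
      rw [finsetSum_coeff, ← h1]
      refine sum_congr rfl fun c _ => ?_
      rw [coeff_C_mul, C0, Equiv.apply_symm_apply, mul_comm]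
    · rw [finsetSum_coeff]
      refine sum_eq_zero fun c _ => ?_
      rw [coeff_C_mul, coeff_eq_zero_of_degree_lt, mul_zero]
      exact lt_of_lt_of_le (col_degree z m c) (by exact_mod_cast not_lt.1 hi)
  rw [Fintype.sum_sum_type] at hp
  have hp1 : VV z * (∑ i : Fin m, C (x (Sum.inl i)) * X ^ (i : ℕ)) +
      ∑ j, C (x (Sum.inr j)) * ll z j = 0 := by
    rw [← hp, mul_sum]
    congr 1
    refine sum_congr rfl fun i _ => ?_
    rw [col]; ring
  have hr : ∀ j, x (Sum.inr j) = 0 := by
    intro j
    have h1 := congrArg (eval (z j)) hp1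
    have h3 : ∑ i, (C (x (Sum.inr i)) * ll z i).eval (z j) = x (Sum.inr j) * (ll z j).eval (z j) := by
      rw [sum_eq_single j]
      · rw [eval_mul, eval_C]
      · intro i _ hi
        rw [eval_mul, ll_eval_ne hi.symm, mul_zero]
      · intro h
        exact absurd (mem_univ _) h
    have h2 : (VV z).eval (z j) = 0 := by rw [← ll_mul z j]; simp
    rw [eval_add, eval_mul, h2, zero_mul, zero_add, eval_finsetSum, h3, eval_zero] at h1
    exact (mul_eq_zero.1 h1).resolve_right (ll_eval_self hz j)
  have hp2 : ∑ i : Fin m, C (x (Sum.inl i)) * X ^ (i : ℕ) = 0 := by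
    have h1 : ∑ j, C (x (Sum.inr j)) * ll z j = 0 :=
      sum_eq_zero fun j _ => by rw [hr j, map_zero, zero_mul]
    rw [h1, add_zero] at hp1
    exact (mul_eq_zero.1 hp1).resolve_left (VV_monic z).ne_zero
  funext c
  rcases c with i | j
  · have h1 := congrArg (fun p => coeff p i) hp2
    simp only [finsetSum_coeff, coeff_C_mul, coeff_X_pow, coeff_zero] at h1
    rw [sum_eq_single i] at h1
    · simpa using h1
    · intro b _ hb
      have : (i : ℕ) ≠ b := fun h => hb (Fin.ext h.symm)
      simp [this]
    · intro h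
      exact absurd (mem_univ _) h
  · exact hr j

theorem cq_X_sub_C_pow {q : ℕ} (hq : 0 < q) (z : R) : cq q ((X - C z) ^ (q - 1)) = 1 := by
  nontriviality R
  have hm : ((X - C z : R[X]) ^ (q - 1)).Monic := (monic_X_sub_C z).pow _
  have hd : ((X - C z : R[X]) ^ (q - 1)).natDegree = q - 1 := by
    rw [(monic_X_sub_C z).natDegree_pow, natDegree_X_sub_C, mul_one]
  ext i
  rw [coeff_cq hq, coeff_one]
  split_ifs with h
  · rw [h, zero_add, mul_one]
    have := hm.coeff_natDegree
    rwa [hd] at this
  · apply coeff_eq_zero_of_natDegree_lt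
    rw [hd]
    have : q * 2 ≤ q * (i + 1) := Nat.mul_le_mul_left _ (by omega)
    omega

/-- `cq (v ^ (q - 1) l_j) = l_{j+1}` -/
theorem cq_ll {q n : ℕ} (hq : 0 < q) (z : Fin (n + 1) → Om)
    (hrot : ∀ j, z (finRotate (n + 1) j) = z j ^ q)
    (hfrob : ∀ w : R, (X - C w : R[X]) ^ q = X ^ q - C (w ^ q))
    (hV : expand R q ((VV z).map (algebraMap Om R)) = ((VV z).map (algebraMap Om R)) ^ q)
    (j : Fin (n + 1)) :
    cq q (((VV z).map (algebraMap Om R)) ^ (q - 1) * (ll z j).map (algebraMap Om R)) =
      (ll z (finRotate (n + 1) j)).map (algebraMap Om R) := by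
  set V := (VV z).map (algebraMap Om R) with hVdef
  set g := (ll z (finRotate (n + 1) j)).map (algebraMap Om R) with hg
  set w := algebraMap Om R (z j) with hw
  have h1 : V ^ (q - 1) * (ll z j).map (algebraMap Om R) = (X - C w) ^ (q - 1) * expand R q g := by
    have hreg : IsLeftRegular (X - C w : R[X]) := (monic_X_sub_C w).isRegular.left
    apply hreg
    show (X - C w) * (V ^ (q - 1) * _) = (X - C w) * ((X - C w) ^ (q - 1) * _)
    have e1 : (X - C w) * (ll z j).map (algebraMap Om R) = V := by
      rw [hVdef, ← ll_mul z j, Polynomial.map_mul, Polynomial.map_sub, map_X, map_C]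
    have e2 : (X - C (w ^ q)) * g = V := by
      have hw' : algebraMap Om R (z (finRotate (n + 1) j)) = w ^ q := by rw [hrot, map_pow]
      rw [hVdef, ← ll_mul z (finRotate (n + 1) j), Polynomial.map_mul, Polynomial.map_sub, map_X,
        map_C, hw']
    have e3 : expand R q V = (X ^ q - C (w ^ q)) * expand R q g := by
      conv_lhs => rw [← e2]
      rw [map_mul, map_sub, expand_X, expand_C]
    calc (X - C w) * (V ^ (q - 1) * (ll z j).map (algebraMap Om R))
        = V ^ (q - 1) * ((X - C w) * (ll z j).map (algebraMap Om R)) := by ring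
      _ = V ^ (q - 1) * V := by rw [e1]
      _ = V ^ q := by rw [← pow_succ, Nat.sub_add_cancel hq]
      _ = expand R q V := hV.symm
      _ = (X ^ q - C (w ^ q)) * expand R q g := e3
      _ = (X - C w) ^ q * expand R q g := by rw [hfrob]
      _ = (X - C w) * ((X - C w) ^ (q - 1) * expand R q g) := by
          have : (X - C w : R[X]) ^ q = (X - C w) ^ (q - 1) * (X - C w) := by
            rw [← pow_succ, Nat.sub_add_cancel hq]
          rw [this]
          ring
  rw [h1, mul_comm, cq_expand hq, cq_X_sub_C_pow hq, mul_one]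

/-- multiplication by `v ^ (q - 1)` -/
theorem T2 {q n m : ℕ} (hq : 2 ≤ q) {z : Fin (n + 1) → Om} (hz : Function.Injective z)
    (hrot : ∀ j, z (finRotate (n + 1) j) = z j ^ q)
    (hfrob : ∀ w : R, (X - C w : R[X]) ^ q = X ^ q - C (w ^ q))
    (hV : expand R q ((VV z).map (algebraMap Om R)) = ((VV z).map (algebraMap Om R)) ^ q)
    (Q : R[X]) (hQ : Q.natDegree ≤ m * (q - 1)) :
    (MQ q (m + (n + 1)) (Q * ((VV z).map (algebraMap Om R)) ^ (q - 1))).charpoly =
      (MQ q m Q).charpoly * (X ^ (n + 1) - C (∏ j, Q.eval (algebraMap Om R (z j)))) := by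
  have hq0 : 0 < q := by omega
  set V := (VV z).map (algebraMap Om R) with hVdef
  set M' := MQ q (m + (n + 1)) (Q * V ^ (q - 1)) with hM'
  set e := (finSumFinEquiv : Fin m ⊕ Fin (n + 1) ≃ Fin (m + (n + 1))) with he
  set M'' := Matrix.reindex e.symm e.symm M' with hM''
  set CR := (C0 z m).map (algebraMap Om R) with hCR
  set Qj : Fin (n + 1) → R[X] := fun j => Q /ₘ (X - C (algebraMap Om R (z j))) with hQj
  set B : Matrix (Fin (n + 1)) (Fin (n + 1)) R :=
    Matrix.of fun j' j => if j' = finRotate (n + 1) j then Q.eval (algebraMap Om R (z j)) else 0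
    with hB
  set Blk : Matrix (Fin m ⊕ Fin (n + 1)) (Fin m ⊕ Fin (n + 1)) R :=
    Matrix.fromBlocks (MQ q m Q) (Matrix.of fun i j => (cq q (Qj j)).coeff (i : ℕ)) 0 B with hBlk
  -- the images of the basis
  have hcol : ∀ c, cq q (Q * V ^ (q - 1) * (col z m c).map (algebraMap Om R)) =
      ∑ c', C (Blk c' c) * (col z m c').map (algebraMap Om R) := by
    intro c
    rw [Fintype.sum_sum_type]
    rcases c with i | j
    · have h1 : Q * V ^ (q - 1) * (col z m (Sum.inl i)).map (algebraMap Om R) =
          expand R q V * (Q * X ^ (i : ℕ)) := by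
        rw [hV, col, Polynomial.map_mul, Polynomial.map_pow, map_X, ← hVdef]
        have : V ^ q = V ^ (q - 1) * V := by rw [← pow_succ, Nat.sub_add_cancel hq0]
        rw [this]; ring
      rw [h1, cq_expand hq0]
      have h2 : (cq q (Q * X ^ (i : ℕ))).degree < m := by
        have hi := i.2
        refine cq_degree_lt hq0 ?_ (by omega)
        refine natDegree_mul_le.trans ?_
        have h3 : (X ^ (i : ℕ) : R[X]).natDegree ≤ i := natDegree_X_pow_le _
        obtain ⟨r, rfl⟩ : ∃ r, q = r + 1 := ⟨q - 1, by omega⟩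
        rw [Nat.add_sub_cancel] at hQ
        have : m * (r + 1) = m * r + m := by ring
        omega
      conv_lhs => rw [← sum_cv h2]
      rw [mul_sum]
      have h4 : ∑ j, C (Blk (Sum.inr j) (Sum.inl i)) * (col z m (Sum.inr j)).map (algebraMap Om R) =
          0 := by
        refine sum_eq_zero fun j _ => ?_
        rw [hBlk, fromBlocks_apply₂₁, Matrix.zero_apply, map_zero, zero_mul]
      rw [h4, add_zero]
      refine sum_congr rfl fun i' _ => ?_
      rw [hBlk, fromBlocks_apply₁₁, coeff_cq hq0, MQ, col, Polynomial.map_mul, Polynomial.map_pow,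
        map_X, ← hVdef]
      ring
    · have hdiv : Q = (X - C (algebraMap Om R (z j))) * Qj j + C (Q.eval (algebraMap Om R (z j))) := by
        have h1 := modByMonic_add_div Q (X - C (algebraMap Om R (z j)))
        rw [modByMonic_X_sub_C_eq_C_eval] at h1
        rw [hQj]
        simp only
        rw [add_comm]
        exact h1.symm
      have e1 : (X - C (algebraMap Om R (z j))) * (ll z j).map (algebraMap Om R) = V := by
        rw [hVdef, ← ll_mul z j, Polynomial.map_mul, Polynomial.map_sub, map_X, map_C]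
      have h1 : Q * V ^ (q - 1) * (col z m (Sum.inr j)).map (algebraMap Om R) =
          C (Q.eval (algebraMap Om R (z j))) * (V ^ (q - 1) * (ll z j).map (algebraMap Om R)) +
          expand R q V * Qj j := by
        rw [hV, col]
        have e2 : V ^ q = V ^ (q - 1) * V := by rw [← pow_succ, Nat.sub_add_cancel hq0]
        rw [e2]
        conv_rhs => rw [← e1]
        conv_lhs => rw [hdiv, ← e1]
        ring
      have h2 : (cq q (Qj j)).degree < m := by
        rcases Nat.eq_zero_or_pos m with hm | hm
        · -- `Q` is constant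
          have h3 : Q.natDegree = 0 := by rw [hm, zero_mul] at hQ; omega
          have h4 : Qj j = 0 := by
            rw [hQj]
            simp only
            nontriviality R
            rw [divByMonic_eq_zero_iff (monic_X_sub_C _), degree_X_sub_C]
            exact lt_of_le_of_lt degree_le_natDegree (by rw [h3]; exact_mod_cast one_pos)
          rw [h4, map_zero, degree_zero]
          exact WithBot.bot_lt_coe _
        · refine cq_degree_lt hq0 ?_ hm
          have h3 : (Qj j).natDegree ≤ Q.natDegree := by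
            rw [hQj]
            simp only
            rw [natDegree_divByMonic _ (monic_X_sub_C _)]
            omega
          have h4 : m * (q - 1) ≤ m * q - 1 := by
            obtain ⟨r, rfl⟩ : ∃ r, q = r + 1 := ⟨q - 1, by omega⟩
            rw [Nat.add_sub_cancel]
            have : m * (r + 1) = m * r + m := by ring
            omega
          omega
      rw [h1, map_add, cq_expand hq0]
      have h5 : cq q (C (Q.eval (algebraMap Om R (z j))) *
          (V ^ (q - 1) * (ll z j).map (algebraMap Om R))) =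
          C (Q.eval (algebraMap Om R (z j))) * (ll z (finRotate (n + 1) j)).map (algebraMap Om R) := by
        rw [← smul_eq_C_mul, map_smul, hVdef, cq_ll hq0 z hrot hfrob hV j, smul_eq_C_mul]
      rw [h5]
      have h6 : ∑ j', C (Blk (Sum.inr j') (Sum.inr j)) * (col z m (Sum.inr j')).map (algebraMap Om R) =
          C (Q.eval (algebraMap Om R (z j))) *
            (ll z (finRotate (n + 1) j)).map (algebraMap Om R) := by
        rw [sum_eq_single (finRotate (n + 1) j)]
        · rw [hBlk, fromBlocks_apply₂₂, hB, of_apply, if_pos rfl, col]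
        · intro b _ hb
          rw [hBlk, fromBlocks_apply₂₂, hB, of_apply, if_neg hb, map_zero, zero_mul]
        · intro h
          exact absurd (mem_univ _) h
      rw [h6, add_comm]
      congr 1
      conv_lhs => rw [← sum_cv h2]
      rw [mul_sum]
      refine sum_congr rfl fun i' _ => ?_
      rw [hBlk, fromBlocks_apply₁₂, of_apply, col, Polynomial.map_mul, Polynomial.map_pow, map_X,
        ← hVdef]
      ring
  have hint : M'' * CR = CR * Blk := by
    ext r c
    have hdeg : ((col z m c).map (algebraMap Om R)).degree < ((m + (n + 1) : ℕ) : WithBot ℕ) :=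
      lt_of_le_of_lt degree_map_le (col_degree z m c)
    have h1 := congrFun (MQ_mulVec' hq0 (Q * V ^ (q - 1)) hdeg) (e r)
    rw [hcol c] at h1
    rw [Matrix.mul_apply, Matrix.mul_apply]
    have h2 : ∑ c', M'' r c' * CR c' c =
        (M'.mulVec (cv (m + (n + 1)) ((col z m c).map (algebraMap Om R)))) (e r) := by
      rw [Matrix.mulVec, dotProduct, ← e.sum_comp]
      refine sum_congr rfl fun c' _ => ?_
      rw [hM'', hCR, Matrix.reindex_apply, Matrix.submatrix_apply, Matrix.map_apply, C0, cv,
        coeff_map]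
      rfl
    rw [h2, h1, cv, finsetSum_coeff]
    refine sum_congr rfl fun c' _ => ?_
    rw [coeff_C_mul, hCR, Matrix.map_apply, C0, coeff_map, mul_comm]
  have hunit : IsUnit CR := by
    rw [Matrix.isUnit_iff_isUnit_det, hCR, ← RingHom.mapMatrix_apply, ← RingHom.map_det]
    exact (IsUnit.mk0 _ (C0_det hz m)).map _
  obtain ⟨U, hU⟩ := hunit
  have hconj : M'' = U.val * Blk * (U.val)⁻¹ := by
    rw [← Matrix.coe_units_inv, hU, ← hint, ← hU, mul_assoc, Units.mul_inv, mul_one]
  have h1 : M''.charpoly = M'.charpoly := charpoly_reindex _ _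
  rw [← h1, hconj, charpoly_units_conj, hBlk, charpoly_fromBlocks_zero₂₁, hB, charpoly_cyc]

end T2

end Pool.Agent.D0H54.GB
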