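import Mathlib

/-!
# The operator `f ↦ cq (Q f)` and its matrix; traces of powers

For MP_a90b0f_nt (helper54), piece B.  Lean: helper45.
-/

set_option autoImplicit false

open Finset Polynomial

namespace Pool.Agent.D0H54.GB

variable {R : Type*} [CommRing R]

theorem q_idx {q i : ℕ} (hq : 0 < q) : i ≤ q * (i + 1) - 1 := by
  have : i + 1 ≤ q * (i + 1) := Nat.le_mul_of_pos_left _ hq
  omega

/-- the coefficients with the indices `q (i + 1) - 1` -/
noncomputable def cqf (q : ℕ) (f : R[X]) : R[X] :=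
  ∑ i ∈ range (f.natDegree + 1), monomial i (f.coeff (q * (i + 1) - 1))

theorem coeff_cqf {q : ℕ} (hq : 0 < q) (f : R[X]) (i : ℕ) :
    (cqf q f).coeff i = f.coeff (q * (i + 1) - 1) := by
  unfold cqf
  rw [finsetSum_coeff]
  simp only [coeff_monomial]
  rw [Finset.sum_ite_eq']
  split_ifs with h
  · rfl
  · rw [mem_range, not_lt] at h
    rw [coeff_eq_zero_of_natDegree_lt]
    have := q_idx (i := i) hq
    omega

/-- the linear map `cq` -/
noncomputable def cq (q : ℕ) : R[X] →ₗ[R] R[X] :=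
  if hq : 0 < q then
    { toFun := cqf q
      map_add' := fun f g => by
        ext i
        rw [coeff_add, coeff_cqf hq, coeff_cqf hq, coeff_cqf hq, coeff_add]
      map_smul' := fun c f => by
        ext i
        rw [RingHom.id_apply, coeff_smul, coeff_cqf hq, coeff_cqf hq, coeff_smul] }
  else 0

theorem coeff_cq {q : ℕ} (hq : 0 < q) (f : R[X]) (i : ℕ) :
    (cq q f).coeff i = f.coeff (q * (i + 1) - 1) := by
  unfold cq
  rw [dif_pos hq]
  exact coeff_cqf hq f i

theorem cq_expand {q : ℕ} (hq : 0 < q) (A h : R[X]) :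
    cq q (expand R q A * h) = A * cq q h := by
  induction A using Polynomial.induction_on' with
  | add a b ha hb => rw [map_add, add_mul, map_add, ha, hb, add_mul]
  | monomial n c =>
    ext i
    rw [coeff_cq hq, expand_monomial, ← C_mul_X_pow_eq_monomial, ← C_mul_X_pow_eq_monomial,
      mul_assoc, mul_assoc, coeff_C_mul, coeff_C_mul, coeff_X_pow_mul', coeff_X_pow_mul']
    congr 1
    by_cases h1 : n ≤ i
    · have h2 : n * q ≤ q * (i + 1) - 1 := by
        have : q * (n + 1) ≤ q * (i + 1) := Nat.mul_le_mul_left _ (by omega)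
        have e : q * (n + 1) = n * q + q := by ring
        omega
      rw [if_pos h2, if_pos h1, coeff_cq hq]
      congr 1
      have e : q * (i + 1) = q * (i - n + 1) + n * q := by
        obtain ⟨d, rfl⟩ := Nat.exists_eq_add_of_le h1
        rw [Nat.add_sub_cancel_left]; ring
      rw [e]
      have : 0 < q * (i - n + 1) := Nat.mul_pos hq (by omega)
      omega
    · have h2 : ¬ n * q ≤ q * (i + 1) - 1 := by
        have : q * (i + 1) ≤ q * n := Nat.mul_le_mul_left _ (by omega)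
        have e : q * n = n * q := by ring
        have : 0 < q * (i + 1) := Nat.mul_pos hq (by omega)
        omega
      rw [if_neg h2, if_neg h1]

/-- the matrix of `f ↦ cq (Q f)` on the polynomials of degree less than `N` -/
noncomputable def MQ (q N : ℕ) (Q : R[X]) : Matrix (Fin N) (Fin N) R :=
  fun i j => (Q * X ^ (j : ℕ)).coeff (q * ((i : ℕ) + 1) - 1)

/-- the vector of the coefficients -/
def cv (N : ℕ) (f : R[X]) : Fin N → R := fun i => f.coeff i

theorem sum_cv {N : ℕ} {f : R[X]} (hf : f.degree < N) :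
    ∑ j : Fin N, C (f.coeff j) * X ^ (j : ℕ) = f := by
  ext i
  rw [finsetSum_coeff]
  simp only [coeff_C_mul, coeff_X_pow]
  by_cases hi : i < N
  · rw [Finset.sum_eq_single (⟨i, hi⟩ : Fin N)]
    · simp
    · intro b _ hb
      have : i ≠ b := fun h => hb (Fin.ext h.symm)
      simp [this]
    · intro h
      exact absurd (mem_univ _) h
  · rw [coeff_eq_zero_of_degree_lt (lt_of_lt_of_le hf (by exact_mod_cast not_lt.1 hi))]
    refine sum_eq_zero fun b _ => ?_
    have : i ≠ b := fun h => hi (h ▸ b.2)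
    simp [this]

theorem MQ_mulVec {q N : ℕ} (Q : R[X]) {f : R[X]} (hf : f.degree < N) :
    (MQ q N Q).mulVec (cv N f) = fun i : Fin N => (Q * f).coeff (q * ((i : ℕ) + 1) - 1) := by
  funext i
  have h1 : Q * f = ∑ j : Fin N, Q * (C (f.coeff j) * X ^ (j : ℕ)) := by
    rw [← mul_sum, sum_cv hf]
  rw [h1, finsetSum_coeff]
  simp only [Matrix.mulVec, dotProduct, MQ, cv]
  refine sum_congr rfl fun j _ => ?_
  rw [show Q * (C (f.coeff j) * X ^ (j : ℕ)) = C (f.coeff j) * (Q * X ^ (j : ℕ)) by ring,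
    coeff_C_mul, mul_comm]

theorem MQ_mulVec' {q N : ℕ} (hq : 0 < q) (Q : R[X]) {f : R[X]} (hf : f.degree < N) :
    (MQ q N Q).mulVec (cv N f) = cv N (cq q (Q * f)) := by
  rw [MQ_mulVec Q hf]
  funext i
  rw [cv, coeff_cq hq]

theorem cq_degree_lt {q N : ℕ} (hq : 0 < q) {g : R[X]} (hg : g.natDegree ≤ N * q - 1)
    (hN : 0 < N) : (cq q g).degree < N := by
  rw [degree_lt_iff_coeff_zero]
  intro i hi
  rw [coeff_cq hq]
  apply coeff_eq_zero_of_natDegree_lt
  have h1 : N * q ≤ i * q := Nat.mul_le_mul_right _ hi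
  have h2 : q * (i + 1) = i * q + q := by ring
  have h3 : 0 < N * q := Nat.mul_pos hN hq
  omega

theorem MQ_one (N : ℕ) : MQ 1 N (1 : R[X]) = 1 := by
  ext i j
  rw [MQ, one_mul, one_mul, Nat.add_sub_cancel, coeff_X_pow, Matrix.one_apply]
  simp only [Fin.ext_iff]

theorem MQ_mul {q q' N : ℕ} (hq : 0 < q) (hq' : 0 < q') (Q Q' : R[X])
    (hQ' : Q'.natDegree ≤ N * (q' - 1)) :
    MQ q N Q * MQ q' N Q' = MQ (q * q') N (expand R q' Q * Q') := by
  ext i j
  have hN : 0 < N := lt_of_le_of_lt (Nat.zero_le _) i.2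
  set h := Q' * X ^ (j : ℕ) with hh
  have hdeg : h.natDegree ≤ N * q' - 1 := by
    have h1 : h.natDegree ≤ Q'.natDegree + (X ^ (j : ℕ) : R[X]).natDegree := natDegree_mul_le
    have h2 : (X ^ (j : ℕ) : R[X]).natDegree ≤ j := natDegree_X_pow_le _
    have h3 : (j : ℕ) < N := j.2
    obtain ⟨r, rfl⟩ : ∃ r, q' = r + 1 := ⟨q' - 1, by omega⟩
    rw [Nat.add_sub_cancel] at hQ'
    have : N * (r + 1) = N * r + N := by ring
    omega
  have hg := cq_degree_lt hq' hdeg hN
  have h1 := congrFun (MQ_mulVec (q := q) Q hg) i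
  have h2 : (MQ q N Q * MQ q' N Q') i j = (MQ q N Q).mulVec (cv N (cq q' h)) i := by
    rw [Matrix.mul_apply, Matrix.mulVec, dotProduct]
    refine sum_congr rfl fun l _ => ?_
    rw [cv, coeff_cq hq', hh]
    rfl
  rw [h2, h1, ← cq_expand hq', coeff_cq hq']
  rw [MQ, mul_assoc]
  congr 1
  have h3 : 0 < q * ((i : ℕ) + 1) := Nat.mul_pos hq (by omega)
  rw [Nat.sub_add_cancel h3]
  congr 1
  ring

/-- `∏_{s < i} Q (T ^ (q ^ s))` -/
noncomputable def GG (q : ℕ) (Q : R[X]) : ℕ → R[X]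
  | 0 => 1
  | i + 1 => expand R (q ^ i) Q * GG q Q i

theorem GG_natDegree {q N : ℕ} (hq : 0 < q) {Q : R[X]} (hQ : Q.natDegree ≤ N * (q - 1)) (i : ℕ) :
    (GG q Q i).natDegree ≤ N * (q ^ i - 1) := by
  induction i with
  | zero => simp [GG]
  | succ i ih =>
    have h1 : (GG q Q (i + 1)).natDegree ≤ (expand R (q ^ i) Q).natDegree + (GG q Q i).natDegree :=
      natDegree_mul_le
    rw [natDegree_expand] at h1
    have h2 : Q.natDegree * q ^ i ≤ N * (q - 1) * q ^ i := Nat.mul_le_mul_right _ hQ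
    have h3 : N * (q - 1) * q ^ i + N * (q ^ i - 1) = N * (q ^ (i + 1) - 1) := by
      have h4 : 0 < q ^ i := pow_pos hq i
      obtain ⟨r, hr⟩ : ∃ r, q ^ i = r + 1 := ⟨q ^ i - 1, by omega⟩
      obtain ⟨s, rfl⟩ : ∃ s, q = s + 1 := ⟨q - 1, by omega⟩
      rw [pow_succ, hr, Nat.add_sub_cancel, Nat.add_sub_cancel]
      have : (r + 1) * (s + 1) - 1 = r * s + r + s := by
        have : (r + 1) * (s + 1) = r * s + r + s + 1 := by ring
        omega
      rw [this]; ring
    omega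

theorem MQ_pow {q N : ℕ} (hq : 0 < q) {Q : R[X]} (hQ : Q.natDegree ≤ N * (q - 1)) (i : ℕ) :
    MQ q N Q ^ i = MQ (q ^ i) N (GG q Q i) := by
  induction i with
  | zero => rw [pow_zero, pow_zero, GG, MQ_one]
  | succ i ih =>
    rw [pow_succ', ih, MQ_mul hq (pow_pos hq i) _ _ (GG_natDegree hq hQ i), GG, pow_succ']

theorem trace_MQ {p N : ℕ} (hp : 0 < p) (G : R[X]) :
    (MQ p N G).trace = ∑ j ∈ range N, G.coeff ((p - 1) * (j + 1)) := by
  rw [Matrix.trace, ← Fin.sum_univ_eq_sum_range (fun j => G.coeff ((p - 1) * (j + 1))) N]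
  refine sum_congr rfl fun j _ => ?_
  rw [Matrix.diag_apply, MQ, coeff_mul_X_pow', if_pos (q_idx hp)]
  congr 1
  obtain ⟨r, rfl⟩ : ∃ r, p = r + 1 := ⟨p - 1, by omega⟩
  have : (r + 1) * ((j : ℕ) + 1) = r * ((j : ℕ) + 1) + j + 1 := by ring
  rw [Nat.add_sub_cancel, this]
  omega

theorem trace_zero {p N : ℕ} (hp : 2 ≤ p) {G : R[X]} (hG : G.natDegree ≤ N * (p - 1))
    (hd : (X ^ p - X : R[X]) ∣ G) : (MQ p N G).trace = 0 := by
  nontriviality R
  rw [trace_MQ (by omega)]
  obtain ⟨H, rfl⟩ := hd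
  by_cases hH : H = 0
  · subst hH
    simp
  have hm : (X ^ p - X : R[X]).Monic := monic_X_pow_sub (by rw [degree_X]; exact_mod_cast hp)
  have hnd : (X ^ p - X : R[X]).natDegree = p := by
    rw [natDegree_sub_eq_left_of_natDegree_lt, natDegree_X_pow]
    rw [natDegree_X, natDegree_X_pow]; omega
  rw [hm.natDegree_mul' hH, hnd] at hG
  set a : ℕ → R := fun j => if j = 0 then 0 else H.coeff ((p - 1) * j - 1) with ha
  have h1 : ∀ j, ((X ^ p - X : R[X]) * H).coeff ((p - 1) * (j + 1)) = a j - a (j + 1) := by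
    intro j
    obtain ⟨r, rfl⟩ : ∃ r, p = r + 2 := ⟨p - 2, by omega⟩
    rw [sub_mul, coeff_sub, coeff_X_pow_mul']
    have e1 : (r + 2 - 1) * (j + 1) = ((r + 2 - 1) * (j + 1) - 1) + 1 := by
      have : 0 < (r + 2 - 1) * (j + 1) := Nat.mul_pos (by omega) (by omega)
      omega
    have e2 : (X * H).coeff ((r + 2 - 1) * (j + 1)) = a (j + 1) := by
      rw [e1, coeff_X_mul, ha]
      simp
    rw [e2]
    congr 1
    rcases j with _ | j
    · rw [if_neg (by omega), ha]
      simp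
    · have h3 : r + 2 ≤ (r + 2 - 1) * (j + 1 + 1) := by
        have : (r + 1) * 2 ≤ (r + 1) * (j + 1 + 1) := Nat.mul_le_mul_left _ (by omega)
        rw [show r + 2 - 1 = r + 1 by omega]
        omega
      rw [if_pos h3, ha]
      simp only [Nat.add_eq_zero_iff, one_ne_zero, and_false, if_false]
      congr 1
      have e3 : (r + 2 - 1) * (j + 1 + 1) = (r + 2 - 1) * (j + 1) + (r + 1) := by
        rw [show r + 2 - 1 = r + 1 by omega]; ring
      omega
  rw [sum_congr rfl fun j _ => h1 j, sum_range_sub']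
  have h2 : a 0 = 0 := by simp [ha]
  rw [h2, zero_sub, neg_eq_zero]
  rcases Nat.eq_zero_or_pos N with hN | hN
  · rw [hN]; exact h2
  · rw [ha]
    simp only
    rw [if_neg (by omega)]
    apply coeff_eq_zero_of_natDegree_lt
    have : (p - 1) * N = N * (p - 1) := mul_comm _ _
    omega

theorem dvd_GG {q : ℕ} {Q w : R[X]} (h : w ∣ Q) (i : ℕ) : w ∣ GG q Q (i + 1) := by
  induction i with
  | zero =>
    rw [GG, GG, pow_zero, expand_one, mul_one]
    exact h
  | succ i ih =>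
    rw [GG]
    exact ih.mul_left _

theorem trace_pow_zero {q N m : ℕ} (hq : 2 ≤ q) {Q : R[X]} (hQ : Q.natDegree ≤ N * (q - 1))
    (hd : ∀ i, 1 ≤ i → i ≤ m → (X ^ q ^ i - X : R[X]) ∣ Q) (i : ℕ) (hi1 : 1 ≤ i) (hi : i ≤ m) :
    (MQ q N Q ^ i).trace = 0 := by
  rw [MQ_pow (by omega) hQ]
  refine trace_zero ?_ (GG_natDegree (by omega) hQ i) ?_
  · calc 2 ≤ q := hq
      _ = q ^ 1 := (pow_one q).symm
      _ ≤ q ^ i := Nat.pow_le_pow_right (by omega) hi1
  · obtain ⟨j, rfl⟩ : ∃ j, i = j + 1 := ⟨i - 1, by omega⟩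
    exact dvd_GG (hd _ hi1 hi) j

end Pool.Agent.D0H54.GB
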