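import Pool.Agent.D0H54.GB.Mat
import Pool.Agent.H558R2.FL

/-!
# Vanishing traces of powers and the characteristic polynomial

For MP_a90b0f_nt (helper54), piece B.  Lean: helper45.
-/

set_option autoImplicit false

open Finset Polynomial Matrix

namespace Pool.Agent.D0H54.GB

variable {R : Type*} [CommRing R] {N : ℕ}

/-- the coefficients of the adjugate of the characteristic matrix -/
noncomputable def adjc (A : Matrix (Fin N) (Fin N) R) (k : ℕ) : Matrix (Fin N) (Fin N) R :=
  (matPolyEquiv (adjugate (charmatrix A))).coeff k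

lemma adjc_rec (A : Matrix (Fin N) (Fin N) R) (k : ℕ) :
    adjc A k = A * adjc A (k + 1) + A.charpoly.coeff (k + 1) • 1 := by
  have h0 : A.charpoly • (1 : Matrix (Fin N) (Fin N) R[X]) =
      charmatrix A * adjugate (charmatrix A) := (mul_adjugate _).symm
  have h2 := congrArg matPolyEquiv h0
  rw [map_mul, matPolyEquiv_charmatrix, matPolyEquiv_smul_one] at h2
  have h := congrArg (fun p => coeff p (k + 1)) h2.symm
  simp only [coeff_map, sub_mul, coeff_sub, coeff_X_mul, coeff_C_mul,
    Algebra.algebraMap_eq_smul_one] at h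
  unfold adjc
  rw [← h]
  abel

lemma trace_adjc (A : Matrix (Fin N) (Fin N) R) (k : ℕ) :
    trace (adjc A k) = ((k : R) + 1) * A.charpoly.coeff (k + 1) := by
  have h := congrArg (fun p => coeff p k) (Pool.Agent.H558R2.derivative_charpoly A)
  simp only [coeff_derivative, trace, diag_apply, finsetSum_coeff] at h
  unfold trace adjc
  simp only [diag_apply, matPolyEquiv_coeff_apply]
  rw [← h]
  ring

lemma adjc_eq_zero (A : Matrix (Fin N) (Fin N) R) (k : ℕ) (hk : N ≤ k) : adjc A k = 0 := by
  nontriviality R
  set M := (matPolyEquiv (adjugate (charmatrix A))).natDegree + 1 with hM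
  have key : ∀ j, ∀ k, N ≤ k → M ≤ k + j → adjc A k = 0 := by
    intro j
    induction j with
    | zero =>
      intro k _ h
      exact coeff_eq_zero_of_natDegree_lt (by omega)
    | succ j ih =>
      intro k hk h
      rw [adjc_rec, ih (k + 1) (by omega) (by omega)]
      have : A.charpoly.coeff (k + 1) = 0 := by
        apply coeff_eq_zero_of_natDegree_lt
        rw [charpoly_natDegree_eq_dim, Fintype.card_fin]
        omega
      rw [this]
      simp
  exact key M k hk (by omega)

/-- if the traces of `A, …, A ^ m` vanish then so do `m` coefficients (in characteristic zero) -/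
theorem coeff_zero [IsDomain R] [CharZero R] (A : Matrix (Fin N) (Fin N) R) (m : ℕ)
    (h : ∀ i, 1 ≤ i → i ≤ m → (A ^ i).trace = 0) (k : ℕ) (hk1 : 1 ≤ k) (hkm : k ≤ m)
    (hkN : k ≤ N) : A.charpoly.coeff (N - k) = 0 := by
  have hN : 0 < N := by omega
  have htop : A.charpoly.coeff N = 1 := by
    have h2 := A.charpoly_monic
    rw [Monic, leadingCoeff, charpoly_natDegree_eq_dim, Fintype.card_fin] at h2
    exact h2
  -- the matrices `adjc A (N - 1 - k)`
  have key : ∀ k, k < N → adjc A (N - 1 - k) =
      ∑ j ∈ range (k + 1), A.charpoly.coeff (N - k + j) • A ^ j := by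
    intro k
    induction k with
    | zero =>
      intro _
      rw [adjc_rec, adjc_eq_zero A _ (by omega)]
      rw [show N - 1 - 0 + 1 = N by omega, htop]
      simp [htop]
    | succ k ih =>
      intro hk
      rw [adjc_rec, show N - 1 - (k + 1) + 1 = N - 1 - k by omega, ih (by omega),
        sum_range_succ' _ (k + 1), mul_sum]
      congr 1
      · refine sum_congr rfl fun j _ => ?_
        rw [Matrix.mul_smul, ← pow_succ']
        congr 2
        omega
      · rw [pow_zero]
        congr 2
        omega
  induction k using Nat.strong_induction_on with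
  | _ k ih =>
    have h1 : adjc A (N - 1 - (k - 1)) =
        ∑ j ∈ range k, A.charpoly.coeff (N - (k - 1) + j) • A ^ j := by
      have := key (k - 1) (by omega)
      rwa [show k - 1 + 1 = k by omega] at this
    -- the matrix number `k`
    rcases Nat.lt_or_ge k N with hlt | hge
    · have h2 := key k hlt
      have h3 := congrArg trace h2
      rw [trace_adjc, trace_sum, show N - 1 - k + 1 = N - k by omega, sum_range_succ'] at h3
      have h4 : ∑ j ∈ range k, trace (A.charpoly.coeff (N - k + (j + 1)) • A ^ (j + 1)) = 0 := by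
        refine sum_eq_zero fun j hj => ?_
        rw [mem_range] at hj
        rw [trace_smul, h (j + 1) (by omega) (by omega), smul_zero]
      rw [h4, zero_add, pow_zero, trace_smul, trace_one, Fintype.card_fin, Nat.add_zero,
        smul_eq_mul] at h3
      have h5 : ((N - 1 - k : ℕ) : R) + 1 = (N : R) - k := by
        have : ((N - 1 - k : ℕ) : R) + 1 + k = N := by
          have : (N - 1 - k) + 1 + k = N := by omega
          exact_mod_cast this
        rw [← this]; ring
      rw [h5] at h3
      have h6 : (k : R) * A.charpoly.coeff (N - k) = 0 := by linear_combination -h3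
      rcases mul_eq_zero.1 h6 with h7 | h7
      · exact absurd h7 (by exact_mod_cast (by omega : k ≠ 0))
      · exact h7
    · -- `k = N`: the constant coefficient
      have hkN' : k = N := by omega
      have h0 : A.charpoly • (1 : Matrix (Fin N) (Fin N) R[X]) =
          charmatrix A * adjugate (charmatrix A) := (mul_adjugate _).symm
      have h2 := congrArg matPolyEquiv h0
      rw [map_mul, matPolyEquiv_charmatrix, matPolyEquiv_smul_one] at h2
      have h3 := congrArg (fun p => coeff p 0) h2.symm
      simp only [coeff_map, sub_mul, coeff_sub, coeff_C_mul, coeff_X_mul_zero, zero_sub,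
        Algebra.algebraMap_eq_smul_one] at h3
      have h4 : -(A * adjc A 0) = A.charpoly.coeff 0 • (1 : Matrix (Fin N) (Fin N) R) := h3
      have h5 := key (N - 1) (by omega)
      rw [show N - 1 - (N - 1) = 0 by omega, show N - 1 + 1 = N by omega] at h5
      rw [h5, mul_sum] at h4
      have h6 := congrArg trace h4
      rw [trace_neg, trace_sum, trace_smul, trace_one, Fintype.card_fin] at h6
      have h7 : ∑ j ∈ range N, trace (A * A.charpoly.coeff (N - (N - 1) + j) • A ^ j) = 0 := by
        refine sum_eq_zero fun j hj => ?_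
        rw [mem_range] at hj
        rw [Matrix.mul_smul, ← pow_succ', trace_smul, h (j + 1) (by omega) (by omega), smul_zero]
      rw [h7, neg_zero, smul_eq_mul] at h6
      rw [show N - k = 0 by omega]
      rcases mul_eq_zero.1 h6.symm with h8 | h8
      · exact h8
      · exact absurd h8 (by exact_mod_cast hN.ne')

theorem MQ_map {S : Type*} [CommRing S] (φ : R →+* S) (q N : ℕ) (Q : R[X]) :
    MQ q N (Q.map φ) = (MQ q N Q).map φ := by
  ext i j
  rw [Matrix.map_apply, MQ, MQ, ← coeff_map, Polynomial.map_mul, Polynomial.map_pow, map_X]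

/-- the first coefficients of the characteristic polynomial of `f ↦ cq (Q₁ W f)` vanish if `W` is
divisible by the `X ^ (q ^ i) - X`, `i ≤ m` -/
theorem T3 {q m : ℕ} (hq : 2 ≤ q) (W : ℤ[X])
    (hW : ∀ i, 1 ≤ i → i ≤ m → (X ^ q ^ i - X : ℤ[X]) ∣ W) (Q : R[X])
    (hdeg : Q.natDegree + W.natDegree ≤ N * (q - 1)) (k : ℕ) (hk1 : 1 ≤ k) (hkm : k ≤ m)
    (hkN : k ≤ N) : (MQ q N (Q * W.map (Int.castRingHom R))).charpoly.coeff (N - k) = 0 := by
  let A := MvPolynomial ℕ ℤ
  let Q' : A[X] := ∑ i ∈ range (Q.natDegree + 1), C (MvPolynomial.X i) * X ^ i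
  let φ : A →+* R := MvPolynomial.eval₂Hom (Int.castRingHom R) (fun i => Q.coeff i)
  have hφ : Q'.map φ = Q := by
    rw [Polynomial.map_sum]
    conv_rhs => rw [Q.as_sum_range_C_mul_X_pow]
    refine sum_congr rfl fun i _ => ?_
    rw [Polynomial.map_mul, Polynomial.map_pow, map_X, map_C]
    have hx : φ (MvPolynomial.X i) = Q.coeff i := MvPolynomial.eval₂Hom_X' _ _ _
    rw [hx]
  have hQ' : Q'.natDegree ≤ Q.natDegree := by
    refine natDegree_sum_le_of_forall_le _ _ fun i hi => ?_
    rw [mem_range] at hi
    exact (natDegree_C_mul_X_pow_le _ _).trans (by omega)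
  set M : Matrix (Fin N) (Fin N) A := MQ q N (Q' * W.map (Int.castRingHom A)) with hM
  have hmap : MQ q N (Q * W.map (Int.castRingHom R)) = M.map φ := by
    rw [hM, ← MQ_map, Polynomial.map_mul, hφ, Polynomial.map_map]
    congr 3
    exact (RingHom.ext_int _ _)
  have hcoef : M.charpoly.coeff (N - k) = 0 := by
    refine coeff_zero M m (fun i hi1 hi2 => ?_) k hk1 hkm hkN
    rw [hM]
    refine trace_pow_zero hq (m := m) ?_ (fun i hi1 hi2 => ?_) i hi1 hi2
    · refine natDegree_mul_le.trans ?_
      have : (W.map (Int.castRingHom A)).natDegree ≤ W.natDegree := natDegree_map_le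
      omega
    · have h1 := Polynomial.map_dvd (Int.castRingHom A) (hW i hi1 hi2)
      rw [Polynomial.map_sub, Polynomial.map_pow, map_X] at h1
      exact h1.mul_left _
  rw [hmap, charpoly_map, coeff_map, hcoef, map_zero]

end Pool.Agent.D0H54.GB
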