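import Pool.Agent.D0H54.GB.Cyc

/-!
# The Frobenius orbit of the roots of an irreducible polynomial

For MP_a90b0f_nt (helper54), piece B.  Lean: helper45.
-/

set_option autoImplicit false

open Finset Polynomial Matrix

namespace Pool.Agent.D0H54.GB

section orbit

variable {k Om R : Type*} [Field k] [Fintype k] [Field Om] [Algebra k Om] [CommRing R] [Algebra k R]

theorem frob_sub (x y : R) : (x - y) ^ Fintype.card k = x ^ Fintype.card k - y ^ Fintype.card k :=
  map_sub (FiniteField.frobeniusAlgHom k R) x y

theorem frob_add (x y : R) : (x + y) ^ Fintype.card k = x ^ Fintype.card k + y ^ Fintype.card k :=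
  map_add (FiniteField.frobeniusAlgHom k R) x y

theorem frob_inj {x y : Om} (h : x ^ Fintype.card k = y ^ Fintype.card k) : x = y := by
  have h1 : (x - y) ^ Fintype.card k = 0 := by rw [frob_sub, h, sub_self]
  exact sub_eq_zero.1 (pow_eq_zero_iff Fintype.card_ne_zero |>.1 h1)

theorem frob_pow_inj (i : ℕ) {x y : Om} (h : x ^ Fintype.card k ^ i = y ^ Fintype.card k ^ i) :
    x = y := by
  induction i with
  | zero => simpa using h
  | succ i ih =>
    apply ih
    apply frob_inj (k := k)
    rw [← pow_mul, ← pow_mul, ← pow_succ]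
    exact h

theorem hfrob_poly (w : R) : (X - C w : R[X]) ^ Fintype.card k =
    X ^ Fintype.card k - C (w ^ Fintype.card k) := by
  rw [frob_sub (k := k), C_pow]

theorem frob_eval_map (c : k[X]) (x : R) : (aeval x c) ^ Fintype.card k =
    aeval (x ^ Fintype.card k) c := by
  have h1 := Polynomial.aeval_algHom_apply (FiniteField.frobeniusAlgHom k R) x c
  simpa using h1.symm

theorem two_le_card : 2 ≤ Fintype.card k := Fintype.one_lt_card

theorem hV_map [Algebra Om R] [IsScalarTower k Om R] (v : k[X]) :
    expand R (Fintype.card k) ((v.map (algebraMap k Om)).map (algebraMap Om R)) =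
      ((v.map (algebraMap k Om)).map (algebraMap Om R)) ^ Fintype.card k := by
  rw [Polynomial.map_map, ← Polynomial.map_pow, ← FiniteField.expand_card, map_expand]

theorem dvd_X_pow {v : k[X]} (hv : Irreducible v) :
    v ∣ X ^ (Fintype.card k ^ v.natDegree) - X := by
  have := (hv.natDegree_dvd_iff_dvd_X_pow_card_pow_sub_X (n := v.natDegree)).1 dvd_rfl
  rwa [Nat.card_eq_fintype_card] at this

theorem exists_orbit [IsAlgClosed Om] {v : k[X]} (hv : Irreducible v) (hm : v.Monic) {n : ℕ}
    (hn : v.natDegree = n + 1) :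
    ∃ z : Fin (n + 1) → Om, Function.Injective z ∧
      (∀ j, z (finRotate (n + 1) j) = z j ^ Fintype.card k) ∧
      v.map (algebraMap k Om) = VV z := by
  set q := Fintype.card k with hq
  obtain ⟨ζ, hζ⟩ := IsAlgClosed.exists_aeval_eq_zero Om v
    (by rw [degree_eq_natDegree hm.ne_zero, hn]; exact_mod_cast Nat.succ_ne_zero n)
  have hroot : ∀ i : ℕ, aeval (ζ ^ q ^ i) v = 0 := by
    intro i
    induction i with
    | zero => simpa using hζ
    | succ i ih =>
      rw [pow_succ, pow_mul, ← frob_eval_map, ih, zero_pow Fintype.card_ne_zero]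
  have hdvd : ∀ m : ℕ, ζ ^ q ^ m = ζ → n + 1 ∣ m := by
    intro m hζm
    have h1 : v ∣ X ^ q ^ m - X := by
      rw [← hv.dvd_iff_aeval_eq_zero hζ]
      simp [hζm]
    have h2 := hv.natDegree_dvd_of_dvd_X_pow_card_pow_sub_X (n := m)
    rw [Nat.card_eq_fintype_card, hn] at h2
    exact h2 h1
  have hend : ζ ^ q ^ (n + 1) = ζ := by
    obtain ⟨w, hw⟩ := dvd_X_pow hv
    have h1 := congrArg (aeval ζ) hw
    rw [map_mul, hζ, zero_mul, map_sub, map_pow, aeval_X, hn, sub_eq_zero] at h1
    exact h1
  set z : Fin (n + 1) → Om := fun i => ζ ^ q ^ (i : ℕ) with hz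
  have hinj : Function.Injective z := by
    have key : ∀ i j : Fin (n + 1), i < j → z i ≠ z j := by
      intro i j hij h
      obtain ⟨d, hd⟩ := Nat.exists_eq_add_of_lt (show (i : ℕ) < j from hij)
      have h1 : ζ ^ q ^ (i : ℕ) = (ζ ^ q ^ (d + 1)) ^ q ^ (i : ℕ) := by
        rw [← pow_mul, ← pow_add, show d + 1 + (i : ℕ) = j by omega]
        exact h
      have h2 := frob_pow_inj (k := k) _ h1
      have h3 := hdvd _ h2.symm
      have h4 := Nat.le_of_dvd (by omega) h3
      have := j.2
      omega
    intro i j h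
    rcases lt_trichotomy i j with h1 | h1 | h1
    · exact absurd h (key _ _ h1)
    · exact h1
    · exact absurd h.symm (key _ _ h1)
  refine ⟨z, hinj, ?_, ?_⟩
  · intro j
    rw [hz]
    simp only
    rw [← pow_mul, ← pow_succ]
    by_cases hj : j = Fin.last n
    · subst hj
      rw [finRotate_last, Fin.val_last, Fin.val_zero, hend, pow_zero, pow_one]
    · rw [coe_finRotate_of_ne_last hj]
  · symm
    refine eq_of_dvd_of_natDegree_le_of_leadingCoeff ?_ ?_ ?_
    · rw [VV]
      refine Finset.prod_dvd_of_coprime ?_ ?_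
      · intro i _ j _ hij
        exact isCoprime_X_sub_C_of_isUnit_sub (sub_ne_zero.2 (hinj.ne hij)).isUnit
      · intro i _
        rw [dvd_iff_isRoot, IsRoot.def, eval_map_algebraMap]
        exact hroot i
    · rw [hm.natDegree_map, hn, VV_natDegree]
    · rw [(hm.map _).leadingCoeff, (VV_monic z).leadingCoeff]

/-- the roots of a polynomial over `k` are stable under the Frobenius -/
theorem roots_frob [IsAlgClosed Om] (c : k[X]) :
    (c.map (algebraMap k Om)).roots.map (fun z => z ^ Fintype.card k) =
      (c.map (algebraMap k Om)).roots := by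
  have h1 := (IsAlgClosed.splits (c.map (algebraMap k Om))).roots_map
    (FiniteField.frobeniusAlgHom k Om).toRingHom
  rw [Polynomial.map_map] at h1
  have h2 : (FiniteField.frobeniusAlgHom k Om).toRingHom.comp (algebraMap k Om) =
      algebraMap k Om := (FiniteField.frobeniusAlgHom k Om).comp_algebraMap
  rw [h2] at h1
  exact h1.symm

end orbit

end Pool.Agent.D0H54.GB
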