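import Pool.Agent.D0H54.GB.LSum
import Pool.Agent.D0H54.GB.Newton

/-!
# The trace formula

For MP_a90b0f_nt (helper54), piece B.  Lean: helper45.
-/

set_option autoImplicit false
set_option linter.unusedSectionVars false

open Finset Polynomial Matrix

namespace Pool.Agent.D0H54.GB

variable {k Om R : Type*} [Field k] [Fintype k] [Field Om] [IsAlgClosed Om] [Algebra k Om]
  [CommRing R] [Algebra Om R]

variable (k Om) in
/-- the L-series -/
noncomputable def Ls (Q : R[X]) : PowerSeries R := PowerSeries.mk (SS k Om Q)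

/-- the determinant -/
noncomputable def Ds (q N : ℕ) (Q : R[X]) : R[X] := (MQ q N Q).charpolyRev

theorem roots_VV {n : ℕ} (z : Fin (n + 1) → Om) : (VV z).roots = univ.val.map z := by
  have : VV z = ((univ.val.map z).map (fun a => X - C a)).prod := by
    rw [VV, Multiset.map_map]
    rfl
  rw [this, roots_multiset_prod_X_sub_C]

theorem Ds_T2 [Nontrivial R] [Algebra k R] [IsScalarTower k Om R] {v : k[X]} (hv : Irreducible v)
    (hm : v.Monic) {m : ℕ} (Q : R[X]) (hQ : Q.natDegree ≤ m * (Fintype.card k - 1)) :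
    Ds (Fintype.card k) (m + v.natDegree)
      (Q * ((v.map (algebraMap k Om)).map (algebraMap Om R)) ^ (Fintype.card k - 1)) =
      Ds (Fintype.card k) m Q * (1 - C (chiR Om Q v) * X ^ v.natDegree) := by
  obtain ⟨n, hn⟩ : ∃ n, v.natDegree = n + 1 := ⟨v.natDegree - 1, by
    have := hv.natDegree_pos
    omega⟩
  obtain ⟨z, hz, hrot, hVV⟩ := exists_orbit (Om := Om) hv hm hn
  have h1 : chiR Om Q v = ∏ j, Q.eval (algebraMap Om R (z j)) := by
    rw [chiR, hVV, roots_VV, Multiset.map_map]
    rfl
  have h2 := T2 (R := R) two_le_card hz hrot (fun w => hfrob_poly w)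
    (by rw [← hVV]; exact hV_map v) Q hQ
  rw [← hVV, ← h1] at h2
  have h3 := congrArg reverse h2
  rw [reverse_charpoly, reverse_mul, reverse_charpoly] at h3
  · rw [hn, Ds, Ds, h3]
    congr 1
    have h4 : (X ^ (n + 1) - C (chiR Om Q v) : R[X]) = X ^ (n + 1) + C (-chiR Om Q v) := by
      rw [map_neg]; ring
    have h5 : reverse (X ^ (n + 1) : R[X]) = 1 := by
      have := reverse_mul_X_pow (1 : R[X]) (n + 1)
      rw [one_mul] at this
      rw [this, ← C_1, reverse_C]
    rw [h4, reverse_add_C, h5, natDegree_X_pow, map_neg]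
    ring
  · rw [(charpoly_monic _).leadingCoeff, one_mul,
      (monic_X_pow_sub_C _ (Nat.succ_ne_zero n)).leadingCoeff]
    exact one_ne_zero

theorem Ls_T1 {v : k[X]} (hv : Irreducible v) (hm : v.Monic) (Q : R[X]) :
    Ls k Om (Q * ((v.map (algebraMap k Om)).map (algebraMap Om R)) ^ (Fintype.card k - 1)) =
      Ls k Om Q * ((1 - C (chiR Om Q v) * X ^ v.natDegree : R[X]) : PowerSeries R) := by
  ext j
  rw [Ls, PowerSeries.coeff_mk, T1 hv hm]
  rw [Polynomial.coe_sub, Polynomial.coe_one, Polynomial.coe_mul, Polynomial.coe_C,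
    Polynomial.coe_pow, Polynomial.coe_X, mul_sub, mul_one, map_sub, Ls, PowerSeries.coeff_mk]
  congr 1
  rw [mul_left_comm, PowerSeries.coeff_C_mul, PowerSeries.coeff_mul_X_pow']
  congr 1
  split_ifs with h
  · rw [PowerSeries.coeff_mk]
  · rfl

theorem step [Nontrivial R] [Algebra k R] [IsScalarTower k Om R] (d : ℕ) :
    ∀ w : k[X], w.Monic → w.natDegree = d → ∀ (N : ℕ) (Q : R[X]),
      Q.natDegree ≤ N * (Fintype.card k - 1) →
      ∃ U : PowerSeries R, PowerSeries.constantCoeff U = 1 ∧
        Ls k Om (Q * ((w.map (algebraMap k Om)).map (algebraMap Om R)) ^ (Fintype.card k - 1)) =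
          Ls k Om Q * U ∧
        ((Ds (Fintype.card k) (N + w.natDegree) (Q * ((w.map (algebraMap k Om)).map
          (algebraMap Om R)) ^ (Fintype.card k - 1)) : R[X]) : PowerSeries R) =
          (Ds (Fintype.card k) N Q : R[X]) * U := by
  induction d using Nat.strong_induction_on with
  | _ d ih =>
    intro w hw hd N Q hQ
    by_cases h0 : d = 0
    · have hw1 : w = 1 := by
        rw [← hw.natDegree_eq_zero, hd, h0]
      refine ⟨1, by simp, ?_, ?_⟩
      · rw [hw1]; simp
      · rw [hw1]; simp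
    · have hu : ¬ IsUnit w := by
        intro h
        have := natDegree_eq_zero_of_isUnit h
        omega
      obtain ⟨v, hvm, hv, u, hvu⟩ := exists_monic_irreducible_factor w hu
      have hum : u.Monic := Monic.of_mul_monic_left hvm (hvu ▸ hw)
      have hvd := hv.natDegree_pos
      have hdeg : w.natDegree = v.natDegree + u.natDegree := by
        rw [hvu]; exact hvm.natDegree_mul hum
      set V := (v.map (algebraMap k Om)).map (algebraMap Om R) with hV
      set q := Fintype.card k with hq
      have hVd : V.natDegree = v.natDegree := by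
        rw [hV, (hvm.map _).natDegree_map, hvm.natDegree_map]
      have hQ' : (Q * V ^ (q - 1)).natDegree ≤ (N + v.natDegree) * (q - 1) := by
        refine natDegree_mul_le.trans ?_
        have h1 : (V ^ (q - 1)).natDegree ≤ (q - 1) * V.natDegree := natDegree_pow_le
        rw [hVd] at h1
        have h2 : (N + v.natDegree) * (q - 1) = N * (q - 1) + (q - 1) * v.natDegree := by ring
        omega
      obtain ⟨U, hU1, hU2, hU3⟩ := ih u.natDegree (by omega) u hum rfl (N + v.natDegree)
        (Q * V ^ (q - 1)) hQ'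
      have hw2 : Q * ((w.map (algebraMap k Om)).map (algebraMap Om R)) ^ (q - 1) =
          Q * V ^ (q - 1) * ((u.map (algebraMap k Om)).map (algebraMap Om R)) ^ (q - 1) := by
        rw [hvu, Polynomial.map_mul, Polynomial.map_mul, mul_pow, mul_assoc]
      refine ⟨((1 - C (chiR Om Q v) * X ^ v.natDegree : R[X]) : PowerSeries R) * U, ?_, ?_, ?_⟩
      · rw [map_mul, hU1, mul_one, Polynomial.constantCoeff_coe, coeff_sub, coeff_one_zero,
          coeff_C_mul_X_pow, if_neg (by omega), sub_zero]
      · rw [hw2, hU2, Ls_T1 hv hvm, mul_assoc]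
      · rw [hw2, hdeg, ← add_assoc, hU3, Ds_T2 hv hvm Q hQ, Polynomial.coe_mul, mul_assoc]

theorem hmon {q : ℕ} (hq2 : 2 ≤ q) (S : Type*) [CommRing S] (i : ℕ) :
    (X ^ q ^ (i + 1) - X : S[X]).Monic := by
  nontriviality S
  apply monic_X_pow_sub
  rw [degree_X]
  have : 2 ≤ q ^ (i + 1) := by
    calc 2 ≤ q := hq2
      _ = q ^ 1 := (pow_one q).symm
      _ ≤ q ^ (i + 1) := Nat.pow_le_pow_right (by omega) (by omega)
  exact_mod_cast (by omega : 1 < q ^ (i + 1))

/-- the trace formula -/
theorem trace_formula [Nontrivial R] [Algebra k R] [IsScalarTower k Om R] (N : ℕ) (Q : R[X])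
    (hQ : Q.natDegree ≤ N * (Fintype.card k - 1)) :
    Ls k Om Q = ((Ds (Fintype.card k) N Q : R[X]) : PowerSeries R) := by
  set q := Fintype.card k with hq
  have hq2 : 2 ≤ q := two_le_card
  rw [← sub_eq_zero]
  ext m
  rw [map_zero]
  -- the multiplier
  set w : k[X] := ∏ i ∈ range m, (X ^ q ^ (i + 1) - X) with hw
  have hwm : w.Monic := monic_prod_of_monic _ _ fun i _ => hmon hq2 k i
  set WZ : ℤ[X] := (∏ i ∈ range m, (X ^ q ^ (i + 1) - X)) ^ (q - 1) with hWZ
  have hwz : (w.map (algebraMap k Om)).map (algebraMap Om R) ^ (q - 1) =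
      WZ.map (Int.castRingHom R) := by
    rw [hWZ, Polynomial.map_pow, hw, Polynomial.map_prod, Polynomial.map_prod,
      Polynomial.map_prod]
    congr 1
    refine prod_congr rfl fun i _ => ?_
    simp
  obtain ⟨U, hU1, hU2, hU3⟩ := step (Om := Om) w.natDegree w hwm rfl N Q hQ
  have hWdeg : WZ.natDegree = (q - 1) * w.natDegree := by
    rw [hWZ, Monic.natDegree_pow (monic_prod_of_monic _ _ fun i _ => hmon hq2 ℤ i),
      natDegree_prod_of_monic _ _ fun i _ => hmon hq2 ℤ i, hw,
      natDegree_prod_of_monic _ _ fun i _ => hmon hq2 k i]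
    congr 1
    refine sum_congr rfl fun i _ => ?_
    have h1 : 1 < q ^ (i + 1) := Nat.one_lt_pow (by omega) (by omega)
    rw [FiniteField.X_pow_card_sub_X_natDegree_eq _ h1]
    rw [natDegree_sub_eq_left_of_natDegree_lt, natDegree_X_pow]
    rw [natDegree_X, natDegree_X_pow]; exact h1
  have hdvdZ : ∀ i, 1 ≤ i → i ≤ m → (X ^ q ^ i - X : ℤ[X]) ∣ WZ := by
    intro i hi1 him
    rw [hWZ]
    refine dvd_pow ?_ (by omega)
    have := dvd_prod_of_mem (fun i => (X ^ q ^ (i + 1) - X : ℤ[X])) (mem_range.2 (show i - 1 < m by omega))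
    rwa [Nat.sub_add_cancel hi1] at this
  have hdvdR : ∀ i, 1 ≤ i → i ≤ m → (X ^ q ^ i - X : R[X]) ∣
      Q * (w.map (algebraMap k Om)).map (algebraMap Om R) ^ (q - 1) := by
    intro i hi1 him
    rw [hwz]
    refine Dvd.dvd.mul_left ?_ _
    have := Polynomial.map_dvd (Int.castRingHom R) (hdvdZ i hi1 him)
    simpa using this
  -- the two series agree up to `m`
  have hL : ∀ j ≤ m, PowerSeries.coeff j (Ls k Om (Q * (w.map (algebraMap k Om)).map
      (algebraMap Om R) ^ (q - 1))) = if j = 0 then 1 else 0 := by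
    intro j hj
    rw [Ls, PowerSeries.coeff_mk]
    split_ifs with h0
    · rw [h0, SS_zero]
    · exact T3L (m := m) _ hdvdR (by omega) hj
  have hD : ∀ j ≤ m, (Ds q (N + w.natDegree) (Q * (w.map (algebraMap k Om)).map
      (algebraMap Om R) ^ (q - 1))).coeff j = if j = 0 then 1 else 0 := by
    intro j hj
    split_ifs with h0
    · rw [h0, coeff_zero_eq_eval_zero, Ds, eval_charpolyRev]
    · rw [Ds, ← reverse_charpoly, coeff_reverse, charpoly_natDegree_eq_dim, Fintype.card_fin]
      by_cases hjN : j ≤ N + w.natDegree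
      · rw [revAt_le hjN, hwz]
        refine T3 hq2 WZ hdvdZ Q ?_ j (by omega) hj hjN
        rw [hWdeg]
        have : (N + w.natDegree) * (q - 1) = N * (q - 1) + (q - 1) * w.natDegree := by ring
        omega
      · rw [revAt_eq_self_of_lt (by omega)]
        apply coeff_eq_zero_of_natDegree_lt
        rw [charpoly_natDegree_eq_dim, Fintype.card_fin]
        omega
  have hdiff : (PowerSeries.X : PowerSeries R) ^ (m + 1) ∣
      (Ls k Om Q - ((Ds q N Q : R[X]) : PowerSeries R)) * U := by
    rw [PowerSeries.X_pow_dvd_iff]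
    intro j hj
    rw [sub_mul, ← hU2, ← hU3, map_sub, hL j (by omega), Polynomial.coeff_coe, hD j (by omega),
      sub_self]
  have hUu : IsUnit U := by
    rw [PowerSeries.isUnit_iff_constantCoeff, hU1]
    exact isUnit_one
  rw [hUu.dvd_mul_right, PowerSeries.X_pow_dvd_iff] at hdiff
  exact hdiff m (by omega)

/-- the trace formula at `1` -/
theorem trace_formula_one [Nontrivial R] [Algebra k R] [IsScalarTower k Om R] (N : ℕ) (Q : R[X])
    (hQ : Q.natDegree ≤ N * (Fintype.card k - 1)) (J : ℕ) (hJ : N < J) :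
    ∑ j ∈ range J, SS k Om Q j = (1 - MQ (Fintype.card k) N Q).det := by
  have h1 := trace_formula (k := k) (Om := Om) N Q hQ
  have h2 : ∀ j, SS k Om Q j = (Ds (Fintype.card k) N Q).coeff j := by
    intro j
    have := congrArg (PowerSeries.coeff j) h1
    rwa [Ls, PowerSeries.coeff_mk, Polynomial.coeff_coe] at this
  have h3 : (Ds (Fintype.card k) N Q).eval 1 = (1 - MQ (Fintype.card k) N Q).det := by
    rw [Ds, charpolyRev, ← coe_evalRingHom, RingHom.map_det]
    congr 1
    ext i j
    rw [RingHom.mapMatrix_apply, Matrix.map_apply, Matrix.sub_apply, Matrix.sub_apply,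
      Matrix.smul_apply, Matrix.map_apply, coe_evalRingHom, eval_sub, smul_eq_mul, eval_mul,
      eval_X, eval_C, one_mul]
    congr 1
    rw [Matrix.one_apply, Matrix.one_apply]
    split_ifs <;> simp
  rw [sum_congr rfl fun j _ => h2 j, ← h3, eval_eq_sum_range' (n := J)]
  · refine sum_congr rfl fun j _ => ?_
    rw [one_pow, mul_one]
  · rw [Ds, ← reverse_charpoly]
    refine lt_of_le_of_lt (reverse_natDegree_le _) ?_
    rw [charpoly_natDegree_eq_dim, Fintype.card_fin]
    exact hJ

end Pool.Agent.D0H54.GB
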